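import Mathlib

/-! Row CR: many vectors of a plane in order have a large cross ratio. -/

set_option autoImplicit false

namespace Pool.Agent.HBX

theorem cr_big (C : ℝ) : ∃ n : ℕ, ∀ β : ℕ → ℕ → ℝ,
    (∀ i j, i < j → j < n → 0 < β i j) →
    (∀ i j k m, i < j → j < k → k < m → m < n →
      β i j * β k m - β i k * β j m + β i m * β j k = 0) →
    ∃ i j k m, i < j ∧ j < k ∧ k < m ∧ m < n ∧ C * (β i j * β k m) ≤ β i k * β j m := by
  obtain ⟨C', hCC, hC2⟩ : ∃ C' : ℝ, C ≤ C' ∧ 2 ≤ C' := ⟨max C 2, le_max_left _ _, le_max_right _ _⟩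
  have hq1 : 1 < C' / (C' - 1) := by
    rw [lt_div_iff₀ (by linarith)]
    linarith
  obtain ⟨M, hM⟩ := pow_unbounded_of_one_lt C' hq1
  refine ⟨M + 5, fun β hpos hpl => ?_⟩
  by_contra hcon
  have hlt : ∀ i j k m, i < j → j < k → k < m → m < M + 5 →
      β i k * β j m < C' * (β i j * β k m) := by
    intro i j k m h1 h2 h3 h4
    by_contra h
    refine hcon ⟨i, j, k, m, h1, h2, h3, h4, le_trans ?_ (not_lt.1 h)⟩
    exact mul_le_mul_of_nonneg_right hCC
      (mul_pos (hpos i j h1 (by omega)) (hpos k m h3 h4)).le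
  obtain ⟨D, hD⟩ : ∃ D : ℕ → ℕ → ℝ, ∀ j m, D j m = β j m / (β 0 j * β 0 m) := ⟨_, fun _ _ => rfl⟩
  have hDpos : ∀ j m, 0 < j → j < m → m < M + 5 → 0 < D j m := by
    intro j m h0 h1 h2
    rw [hD]
    exact div_pos (hpos j m h1 h2)
      (mul_pos (hpos 0 j h0 (by omega)) (hpos 0 m (by omega) h2))
  have hDβ : ∀ j m, 0 < j → j < m → m < M + 5 → β j m = D j m * (β 0 j * β 0 m) := by
    intro j m h0 h1 h2
    rw [hD, div_mul_cancel₀]
    exact (mul_pos (hpos 0 j h0 (by omega)) (hpos 0 m (by omega) h2)).ne'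
  have hDadd : ∀ j k m, 0 < j → j < k → k < m → m < M + 5 → D j m = D j k + D k m := by
    intro j k m h0 h1 h2 h3
    have p1 := hpos 0 j h0 (by omega)
    have p2 := hpos 0 k (by omega) (by omega)
    have p3 := hpos 0 m (by omega) h3
    have e := hpl 0 j k m h0 h1 h2 h3
    rw [hDβ k m (by omega) h2 h3, hDβ j m h0 (by omega) h3, hDβ j k h0 h1 (by omega)] at e
    have e2 : (D k m - D j m + D j k) * (β 0 j * β 0 k * β 0 m) = 0 := by
      linear_combination e
    rcases mul_eq_zero.1 e2 with h | h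
    · linarith
    · exact absurd h (mul_pos (mul_pos p1 p2) p3).ne'
  have hgr : ∀ m, 1 < m → m + 1 < M + 5 → C' / (C' - 1) * D 1 m ≤ D 1 (m + 1) := by
    intro m h1 h2
    have p1 := hpos 0 1 (by omega) (by omega)
    have p2 := hpos 0 m (by omega) (by omega)
    have p3 := hpos 0 (m + 1) (by omega) h2
    have e := hlt 0 1 m (m + 1) (by omega) h1 (by omega) h2
    rw [hDβ 1 (m + 1) (by omega) (by omega) h2, hDβ m (m + 1) (by omega) (by omega) h2] at e
    have hP : 0 < β 0 1 * β 0 m * β 0 (m + 1) := mul_pos (mul_pos p1 p2) p3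
    have e2 : D 1 (m + 1) * (β 0 1 * β 0 m * β 0 (m + 1)) <
        (C' * D m (m + 1)) * (β 0 1 * β 0 m * β 0 (m + 1)) := by
      calc D 1 (m + 1) * (β 0 1 * β 0 m * β 0 (m + 1))
          = β 0 m * (D 1 (m + 1) * (β 0 1 * β 0 (m + 1))) := by ring
        _ < C' * (β 0 1 * (D m (m + 1) * (β 0 m * β 0 (m + 1)))) := e
        _ = (C' * D m (m + 1)) * (β 0 1 * β 0 m * β 0 (m + 1)) := by ring
    have e3 := lt_of_mul_lt_mul_right e2 hP.le
    have e4 := hDadd 1 m (m + 1) (by omega) h1 (by omega) h2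
    rw [div_mul_eq_mul_div, div_le_iff₀ (by linarith)]
    nlinarith
  have hpow : ∀ k, 2 + k < M + 5 → (C' / (C' - 1)) ^ k * D 1 2 ≤ D 1 (2 + k) := by
    intro k
    induction k with
    | zero => intro _; simp
    | succ k ih =>
      intro hk
      have h1 := ih (by omega)
      have h2 := hgr (2 + k) (by omega) (by omega)
      calc (C' / (C' - 1)) ^ (k + 1) * D 1 2
          = C' / (C' - 1) * ((C' / (C' - 1)) ^ k * D 1 2) := by ring
        _ ≤ C' / (C' - 1) * D 1 (2 + k) :=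
            mul_le_mul_of_nonneg_left h1 (by linarith)
        _ ≤ D 1 (2 + (k + 1)) := h2
  have hM1 : C' ≤ (C' / (C' - 1)) ^ (M + 1) := by
    rw [pow_succ]
    have : 0 < (C' / (C' - 1)) ^ M := by positivity
    nlinarith
  have h1 := hpow (M + 1) (by omega)
  have hd12 := hDpos 1 2 (by omega) (by omega) (by omega)
  have h2 : C' * D 1 2 ≤ D 1 (2 + (M + 1)) :=
    (mul_le_mul_of_nonneg_right hM1 hd12.le).trans h1
  have h3 := hDadd 2 (2 + (M + 1)) (M + 4) (by omega) (by omega) (by omega) (by omega)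
  have h4 := hDpos 2 (2 + (M + 1)) (by omega) (by omega) (by omega)
  have h5 := hDpos (2 + (M + 1)) (M + 4) (by omega) (by omega) (by omega)
  have h6 := hlt 1 2 (2 + (M + 1)) (M + 4) (by omega) (by omega) (by omega) (by omega)
  have h7 : C' * D 1 2 * D (2 + (M + 1)) (M + 4) ≤ D 1 (2 + (M + 1)) * D 2 (M + 4) := by
    apply mul_le_mul h2 (by linarith) h5.le
    exact (hDpos 1 (2 + (M + 1)) (by omega) (by omega) (by omega)).le
  rw [hDβ 1 (2 + (M + 1)) (by omega) (by omega) (by omega),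
    hDβ 2 (M + 4) (by omega) (by omega) (by omega),
    hDβ 1 2 (by omega) (by omega) (by omega),
    hDβ (2 + (M + 1)) (M + 4) (by omega) (by omega) (by omega)] at h6
  have hP : 0 < β 0 1 * β 0 2 * (β 0 (2 + (M + 1)) * β 0 (M + 4)) :=
    mul_pos (mul_pos (hpos 0 1 (by omega) (by omega)) (hpos 0 2 (by omega) (by omega)))
      (mul_pos (hpos 0 (2 + (M + 1)) (by omega) (by omega)) (hpos 0 (M + 4) (by omega) (by omega)))
  have h8 := mul_le_mul_of_nonneg_right h7 hP.le
  nlinarith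

end Pool.Agent.HBX
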