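import Pool.Agent.HBX.Defs

/-! Two families, one of bounded complexity, row DI: counting. -/

open scoped BigOperators Classical

namespace Pool.Agent.HBX

/-- power means -/
lemma di_jensen {X Z : Type} [Fintype X] [Fintype Z] (R : X → Z → Prop)
    (N : ℕ) (β : ℝ) (hβ : 0 ≤ β)
    (h : β * Fintype.card X * Fintype.card Z ≤
      ((Finset.univ.filter fun p : X × Z => R p.1 p.2).card : ℝ)) :
    β ^ N * (Fintype.card X : ℝ) ^ N * Fintype.card Z ≤
      ((Finset.univ.filter fun p : (Fin N → X) × Z => ∀ a, R (p.1 a) p.2).card : ℝ) := by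
  set d : Z → ℕ := fun z => (Finset.univ.filter fun x => R x z).card with hd
  have h1 : (Finset.univ.filter fun p : X × Z => R p.1 p.2).card = ∑ z, d z := by
    rw [Finset.card_filter, Fintype.sum_prod_type_right]
    refine Finset.sum_congr rfl fun z _ => ?_
    show _ = (Finset.univ.filter fun x => R x z).card
    rw [Finset.card_filter]
  have h2 : (Finset.univ.filter fun p : (Fin N → X) × Z => ∀ a, R (p.1 a) p.2).card =
      ∑ z, d z ^ N := by
    rw [Finset.card_filter, Fintype.sum_prod_type_right]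
    refine Finset.sum_congr rfl fun z _ => ?_
    have e : (Finset.univ.filter fun y : Fin N → X => ∀ a, R (y a) z) =
        Fintype.piFinset fun _ : Fin N => Finset.univ.filter fun x => R x z := by
      ext y
      simp [Fintype.mem_piFinset]
    have e2 : (Finset.univ.filter fun y : Fin N → X => ∀ a, R (y a) z).card = d z ^ N := by
      rw [e, Fintype.card_piFinset]
      simp [hd]
    rw [← e2, Finset.card_filter]
  rcases isEmpty_or_nonempty Z with hZ | hZ
  · simp
  have hZ0 : (0:ℝ) < Fintype.card Z := by exact_mod_cast Fintype.card_pos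
  rw [h1] at h
  rw [h2]
  have hJ := Real.pow_arith_mean_le_arith_mean_pow (Finset.univ : Finset Z)
    (fun _ => 1 / (Fintype.card Z : ℝ)) (fun z => (d z : ℝ)) (fun _ _ => by positivity)
    (by rw [Finset.sum_const, Finset.card_univ, nsmul_eq_mul]; field_simp)
    (fun _ _ => by positivity) N
  rw [← Finset.mul_sum, ← Finset.mul_sum] at hJ
  have h3 : β * Fintype.card X ≤ 1 / (Fintype.card Z : ℝ) * ∑ z, (d z : ℝ) := by
    rw [one_div, inv_mul_eq_div, le_div_iff₀ hZ0]
    push_cast at h
    exact h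
  have h4 : (β * Fintype.card X) ^ N ≤ 1 / (Fintype.card Z : ℝ) * ∑ z, (d z : ℝ) ^ N :=
    (pow_le_pow_left₀ (by positivity) h3 N).trans hJ
  rw [one_div, inv_mul_eq_div, le_div_iff₀ hZ0, mul_pow] at h4
  push_cast
  exact h4

/-- tuples with a given property at three positions -/
lemma di_three {m n S : ℕ} (Q : Fin m → Fin n → Fin n → Fin n → Prop) (κ : ℝ)
    (hQ : ∀ i j j', ((Finset.univ.filter fun l => Q i j j' l).card : ℝ) ≤ κ * n) (a b c : Fin S)
    (hab : a ≠ b) (hac : a ≠ c) (hbc : b ≠ c) :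
    ((Finset.univ.filter fun p : (Fin S → Fin n) × Fin m =>
      Q p.2 (p.1 a) (p.1 b) (p.1 c)).card : ℝ) ≤ κ * m * (n : ℝ) ^ S := by
  have hcard : Fintype.card {d : Fin S // d ≠ a ∧ d ≠ b ∧ d ≠ c} + 3 = S := by
    rw [Fintype.card_subtype]
    have e : (Finset.univ.filter fun d : Fin S => d ≠ a ∧ d ≠ b ∧ d ≠ c) =
        ({a, b, c} : Finset (Fin S))ᶜ := by
      ext d; simp
    have h3 : ({a, b, c} : Finset (Fin S)).card = 3 := by
      rw [Finset.card_insert_of_notMem (by simp [hab, hac]),
        Finset.card_insert_of_notMem (by simp [hbc]), Finset.card_singleton]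
    have h4 : ({a, b, c} : Finset (Fin S)).card ≤ S := by
      have := Finset.card_le_univ ({a, b, c} : Finset (Fin S))
      simpa using this
    rw [e, Finset.card_compl, Fintype.card_fin, h3]
    omega
  set R := {d : Fin S // d ≠ a ∧ d ≠ b ∧ d ≠ c} with hR
  have h1 : (Finset.univ.filter fun p : (Fin S → Fin n) × Fin m =>
      Q p.2 (p.1 a) (p.1 b) (p.1 c)).card ≤
      ((Finset.univ.filter fun q : Fin m × Fin n × Fin n × Fin n =>
        Q q.1 q.2.1 q.2.2.1 q.2.2.2) ×ˢ (Finset.univ : Finset (R → Fin n))).card := by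
    refine Finset.card_le_card_of_injOn
      (fun p => ((p.2, p.1 a, p.1 b, p.1 c), fun d : R => p.1 d.1)) ?_ ?_
    · intro p hp
      rw [Finset.mem_coe, Finset.mem_filter] at hp
      rw [Finset.mem_coe, Finset.mem_product, Finset.mem_filter]
      exact ⟨⟨Finset.mem_univ _, hp.2⟩, Finset.mem_univ _⟩
    · intro p _ p' _ hpp
      simp only [Prod.mk.injEq] at hpp
      obtain ⟨⟨h1, h2, h3, h4⟩, h5⟩ := hpp
      refine Prod.ext (funext fun d => ?_) h1
      by_cases hda : d = a
      · rw [hda]; exact h2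
      by_cases hdb : d = b
      · rw [hdb]; exact h3
      by_cases hdc : d = c
      · rw [hdc]; exact h4
      · exact congrFun h5 ⟨d, hda, hdb, hdc⟩
  have h2 : ((Finset.univ.filter fun q : Fin m × Fin n × Fin n × Fin n =>
        Q q.1 q.2.1 q.2.2.1 q.2.2.2).card : ℝ) ≤ m * (n * (n * (κ * n))) := by
    rw [Finset.card_filter, Fintype.sum_prod_type]
    push_cast
    calc ∑ i : Fin m, ∑ q : Fin n × Fin n × Fin n, (if Q i q.1 q.2.1 q.2.2 then (1:ℝ) else 0)
        ≤ ∑ _i : Fin m, (n * (n * (κ * n)) : ℝ) := by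
          refine Finset.sum_le_sum fun i _ => ?_
          rw [Fintype.sum_prod_type]
          calc ∑ j : Fin n, ∑ q : Fin n × Fin n, (if Q i j q.1 q.2 then (1:ℝ) else 0)
              ≤ ∑ _j : Fin n, (n * (κ * n) : ℝ) := by
                refine Finset.sum_le_sum fun j _ => ?_
                rw [Fintype.sum_prod_type]
                calc ∑ j' : Fin n, ∑ l : Fin n, (if Q i j j' l then (1:ℝ) else 0)
                    ≤ ∑ _j' : Fin n, (κ * n : ℝ) := by
                      refine Finset.sum_le_sum fun j' _ => ?_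
                      rw [Finset.sum_boole]
                      exact hQ i j j'
                  _ = n * (κ * n) := by simp
            _ = n * (n * (κ * n)) := by simp
      _ = m * (n * (n * (κ * n))) := by simp
  rw [Finset.card_product] at h1
  have h3 : (Finset.univ : Finset (R → Fin n)).card = n ^ Fintype.card R := by
    rw [Finset.card_univ, Fintype.card_fun, Fintype.card_fin]
  rw [h3] at h1
  calc ((Finset.univ.filter fun p : (Fin S → Fin n) × Fin m =>
      Q p.2 (p.1 a) (p.1 b) (p.1 c)).card : ℝ)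
      ≤ ((Finset.univ.filter fun q : Fin m × Fin n × Fin n × Fin n =>
        Q q.1 q.2.1 q.2.2.1 q.2.2.2).card : ℝ) * (n : ℝ) ^ Fintype.card R := by exact_mod_cast h1
    _ ≤ (m * (n * (n * (κ * n)))) * (n : ℝ) ^ Fintype.card R :=
        mul_le_mul_of_nonneg_right h2 (by positivity)
    _ = κ * m * (n : ℝ) ^ S := by
        have e : (n : ℝ) ^ S = (n : ℝ) ^ Fintype.card R * (n : ℝ) ^ 3 := by
          rw [← pow_add, hcard]
        rw [e]; ring

theorem dichot (S : ℕ) (hS : 3 ≤ S) (β : ℝ) (hβ : 0 < β) : ∃ γ δ : ℝ, 0 < γ ∧ 0 < δ ∧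
    ∀ (m n : ℕ), 1 ≤ n → ∀ (E : Fin m → Fin n → Prop) (v : Fin m → Fin n → Fin n → ℝ),
      β * (m * n : ℝ) ≤ (Nat.card {q : Fin m × Fin n // E q.1 q.2} : ℝ) →
      (∃ i j j', E i j ∧ E i j' ∧
        γ * n ≤ (Nat.card {l : Fin n // E i l ∧ v i l j * v i l j' ≤ 0} : ℝ)) ∨
      (∃ (J : Fin S → Fin n) (ε : Fin S → ℝ), (∀ a, ε a = 1 ∨ ε a = -1) ∧
        δ * m ≤ (Nat.card {i : Fin m // (∀ a, E i (J a)) ∧
          ∀ a b, b ≠ a → 0 < ε b * v i (J b) (J a)} : ℝ)) := by
  have hS0 : (0:ℝ) < S := by exact_mod_cast (by omega : 0 < S)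
  refine ⟨β ^ S / (2 * S ^ 3), β ^ S / (2 * 2 ^ S), by positivity, by positivity, ?_⟩
  intro m n hn E v hE
  rw [or_iff_not_imp_left]
  intro hno
  push Not at hno
  set γ : ℝ := β ^ S / (2 * S ^ 3) with hγ
  have hγ0 : 0 < γ := by positivity
  have hn0 : (0:ℝ) < n := by exact_mod_cast hn
  -- all tuples
  have hall : β ^ S * (n : ℝ) ^ S * m ≤ ((Finset.univ.filter fun p : (Fin S → Fin n) × Fin m =>
      ∀ a, E p.2 (p.1 a)).card : ℝ) := by
    have := di_jensen (X := Fin n) (Z := Fin m) (fun j i => E i j) S β hβ.le (by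
      rw [Fintype.card_fin, Fintype.card_fin]
      rw [Nat.card_eq_fintype_card, Fintype.card_subtype] at hE
      have e : (Finset.univ.filter fun p : Fin n × Fin m => E p.2 p.1).card =
          (Finset.univ.filter fun q : Fin m × Fin n => E q.1 q.2).card := by
        refine Finset.card_bij' (fun p _ => (p.2, p.1)) (fun p _ => (p.2, p.1)) ?_ ?_ ?_ ?_
        · intro p hp
          rw [Finset.mem_filter] at hp ⊢
          exact ⟨Finset.mem_univ _, hp.2⟩
        · intro p hp
          rw [Finset.mem_filter] at hp ⊢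
          exact ⟨Finset.mem_univ _, hp.2⟩
        · intro p _; rfl
        · intro p _; rfl
      rw [e]
      calc β * n * m = β * (m * n) := by ring
        _ ≤ _ := hE)
    rw [Fintype.card_fin, Fintype.card_fin] at this
    exact this
  -- the crossing tuples
  obtain ⟨Q, hQd⟩ : ∃ Q : Fin m → Fin n → Fin n → Fin n → Prop, ∀ i j j' l, Q i j j' l ↔
      E i j ∧ E i j' ∧ E i l ∧ v i l j * v i l j' ≤ 0 :=
    ⟨fun i j j' l => E i j ∧ E i j' ∧ E i l ∧ v i l j * v i l j' ≤ 0, fun _ _ _ _ => Iff.rfl⟩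
  have hQ : ∀ i j j', ((Finset.univ.filter fun l => Q i j j' l).card : ℝ) ≤ γ * n := by
    intro i j j'
    by_cases h1 : E i j
    · by_cases h2 : E i j'
      · have h3 := hno i j j' h1 h2
        rw [Nat.card_eq_fintype_card, Fintype.card_subtype] at h3
        have e : (Finset.univ.filter fun l => Q i j j' l) =
            Finset.univ.filter fun l => E i l ∧ v i l j * v i l j' ≤ 0 := by
          ext l
          simp [hQd, h1, h2]
        rw [e]
        exact h3.le
      · have e : (Finset.univ.filter fun l => Q i j j' l) = ∅ := by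
          ext l
          simp [hQd, h2]
        rw [e]
        simp only [Finset.card_empty, Nat.cast_zero]
        positivity
    · have e : (Finset.univ.filter fun l => Q i j j' l) = ∅ := by
        ext l
        simp [hQd, h1]
      rw [e]
      simp only [Finset.card_empty, Nat.cast_zero]
      positivity
  set good : Finset ((Fin S → Fin n) × Fin m) := Finset.univ.filter fun p =>
    (∀ a, E p.2 (p.1 a)) ∧ ∀ a b c, a ≠ b → a ≠ c → b ≠ c →
      0 < v p.2 (p.1 c) (p.1 a) * v p.2 (p.1 c) (p.1 b) with hgood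
  have hsub : (Finset.univ.filter fun p : (Fin S → Fin n) × Fin m => ∀ a, E p.2 (p.1 a)) ⊆
      good ∪ (Finset.univ.filter fun t : Fin S × Fin S × Fin S =>
        t.1 ≠ t.2.1 ∧ t.1 ≠ t.2.2 ∧ t.2.1 ≠ t.2.2).biUnion fun t =>
          Finset.univ.filter fun p : (Fin S → Fin n) × Fin m =>
            Q p.2 (p.1 t.1) (p.1 t.2.1) (p.1 t.2.2) := by
    intro p hp
    rw [Finset.mem_filter] at hp
    rw [Finset.mem_union]
    by_cases hg : ∀ a b c, a ≠ b → a ≠ c → b ≠ c →
      0 < v p.2 (p.1 c) (p.1 a) * v p.2 (p.1 c) (p.1 b)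
    · left
      rw [hgood, Finset.mem_filter]
      exact ⟨Finset.mem_univ _, hp.2, hg⟩
    · right
      push Not at hg
      obtain ⟨a, b, c, hab, hac, hbc, hv⟩ := hg
      rw [Finset.mem_biUnion]
      refine ⟨(a, b, c), Finset.mem_filter.mpr ⟨Finset.mem_univ _, hab, hac, hbc⟩, ?_⟩
      rw [Finset.mem_filter]
      exact ⟨Finset.mem_univ _, (hQd _ _ _ _).mpr ⟨hp.2 a, hp.2 b, hp.2 c, hv⟩⟩
  have hbad : (((Finset.univ.filter fun t : Fin S × Fin S × Fin S =>
        t.1 ≠ t.2.1 ∧ t.1 ≠ t.2.2 ∧ t.2.1 ≠ t.2.2).biUnion fun t =>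
          Finset.univ.filter fun p : (Fin S → Fin n) × Fin m =>
            Q p.2 (p.1 t.1) (p.1 t.2.1) (p.1 t.2.2)).card : ℝ) ≤
      S ^ 3 * (γ * m * (n : ℝ) ^ S) := by
    have h1 : (((Finset.univ.filter fun t : Fin S × Fin S × Fin S =>
        t.1 ≠ t.2.1 ∧ t.1 ≠ t.2.2 ∧ t.2.1 ≠ t.2.2).biUnion fun t =>
          Finset.univ.filter fun p : (Fin S → Fin n) × Fin m =>
            Q p.2 (p.1 t.1) (p.1 t.2.1) (p.1 t.2.2)).card : ℝ) ≤
        ∑ t ∈ (Finset.univ.filter fun t : Fin S × Fin S × Fin S =>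
        t.1 ≠ t.2.1 ∧ t.1 ≠ t.2.2 ∧ t.2.1 ≠ t.2.2),
          ((Finset.univ.filter fun p : (Fin S → Fin n) × Fin m =>
            Q p.2 (p.1 t.1) (p.1 t.2.1) (p.1 t.2.2)).card : ℝ) := by
      exact_mod_cast Finset.card_biUnion_le
    refine h1.trans ?_
    calc _ ≤ ∑ _t ∈ (Finset.univ.filter fun t : Fin S × Fin S × Fin S =>
        t.1 ≠ t.2.1 ∧ t.1 ≠ t.2.2 ∧ t.2.1 ≠ t.2.2), γ * m * (n : ℝ) ^ S := by
          refine Finset.sum_le_sum fun t ht => ?_
          rw [Finset.mem_filter] at ht
          exact di_three Q γ hQ t.1 t.2.1 t.2.2 ht.2.1 ht.2.2.1 ht.2.2.2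
      _ = ((Finset.univ.filter fun t : Fin S × Fin S × Fin S =>
        t.1 ≠ t.2.1 ∧ t.1 ≠ t.2.2 ∧ t.2.1 ≠ t.2.2).card : ℝ) * (γ * m * (n : ℝ) ^ S) := by
          rw [Finset.sum_const, nsmul_eq_mul]
      _ ≤ S ^ 3 * (γ * m * (n : ℝ) ^ S) := by
          refine mul_le_mul_of_nonneg_right ?_ (by positivity)
          have := Finset.card_filter_le (Finset.univ : Finset (Fin S × Fin S × Fin S))
            (fun t => t.1 ≠ t.2.1 ∧ t.1 ≠ t.2.2 ∧ t.2.1 ≠ t.2.2)
          have h2 : (Finset.univ : Finset (Fin S × Fin S × Fin S)).card = S ^ 3 := by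
            simp; ring
          rw [h2] at this
          exact_mod_cast this
  have hgoodcard : β ^ S / 2 * m * (n : ℝ) ^ S ≤ (good.card : ℝ) := by
    have h1 := (Finset.card_le_card hsub).trans (Finset.card_union_le _ _)
    have h2 : ((Finset.univ.filter fun p : (Fin S → Fin n) × Fin m =>
        ∀ a, E p.2 (p.1 a)).card : ℝ) ≤ (good.card : ℝ) +
        (((Finset.univ.filter fun t : Fin S × Fin S × Fin S =>
        t.1 ≠ t.2.1 ∧ t.1 ≠ t.2.2 ∧ t.2.1 ≠ t.2.2).biUnion fun t =>
          Finset.univ.filter fun p : (Fin S → Fin n) × Fin m =>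
            Q p.2 (p.1 t.1) (p.1 t.2.1) (p.1 t.2.2)).card : ℝ) := by exact_mod_cast h1
    have h3 : (S : ℝ) ^ 3 * (γ * m * (n : ℝ) ^ S) = β ^ S / 2 * m * (n : ℝ) ^ S := by
      rw [hγ]; field_simp
    linarith
  -- one tuple
  obtain ⟨J, hJ⟩ : ∃ J : Fin S → Fin n, β ^ S / 2 * m ≤
      ((Finset.univ.filter fun i : Fin m => (J, i) ∈ good).card : ℝ) := by
    by_contra hcon
    push Not at hcon
    have i1 : Nonempty (Fin n) := ⟨⟨0, hn⟩⟩
    have h1 : ∑ J : Fin S → Fin n, ((Finset.univ.filter fun i : Fin m => (J, i) ∈ good).card : ℝ) <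
        ∑ _J : Fin S → Fin n, β ^ S / 2 * m :=
      Finset.sum_lt_sum_of_nonempty Finset.univ_nonempty fun J _ => hcon J
    have h2 : ∑ J : Fin S → Fin n, ((Finset.univ.filter fun i : Fin m => (J, i) ∈ good).card : ℝ) =
        (good.card : ℝ) := by
      have : good.card = ∑ J : Fin S → Fin n,
          (Finset.univ.filter fun i : Fin m => (J, i) ∈ good).card := by
        conv_lhs => rw [← Finset.filter_univ_mem good]
        rw [Finset.card_filter, Fintype.sum_prod_type]
        refine Finset.sum_congr rfl fun J _ => ?_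
        rw [Finset.card_filter]
      rw [this]
      push_cast
      rfl
    rw [h2, Finset.sum_const, Finset.card_univ, Fintype.card_fun, Fintype.card_fin,
      Fintype.card_fin, nsmul_eq_mul] at h1
    push_cast at h1
    linarith [mul_comm ((n : ℝ) ^ S) (β ^ S / 2 * m)]
  -- signs
  have hother : ∀ c : Fin S, ∃ a : Fin S, a ≠ c := fun c => by
    by_contra hcon
    push Not at hcon
    have h1 := hcon ⟨0, by omega⟩
    have h2 := hcon ⟨1, by omega⟩
    have := h1.trans h2.symm
    simp at this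
  choose oth hoth using hother
  have hthird : ∀ a c : Fin S, a ≠ c → ∃ b : Fin S, b ≠ a ∧ b ≠ c := fun a c hac => by
    have h3 : ({a, c} : Finset (Fin S)).card < (Finset.univ : Finset (Fin S)).card := by
      rw [Finset.card_univ, Fintype.card_fin]
      exact (Finset.card_le_two).trans_lt (by omega)
    obtain ⟨b, _, hb⟩ := Finset.exists_mem_notMem_of_card_lt_card h3
    simp only [Finset.mem_insert, Finset.mem_singleton, not_or] at hb
    exact ⟨b, hb.1, hb.2⟩
  let sg : Fin m → (Fin S → Bool) := fun i c => decide (0 < v i (J c) (J (oth c)))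
  have hsg : ∀ i, (J, i) ∈ good → ∀ a c, a ≠ c →
      0 < (if sg i c = true then (1 : ℝ) else -1) * v i (J c) (J a) := by
    intro i hi a c hac
    rw [hgood, Finset.mem_filter] at hi
    have hpos := hi.2.2
    -- nonzero
    have hnz : ∀ a, a ≠ c → v i (J c) (J a) ≠ 0 := by
      intro a hac h0
      obtain ⟨b, hb1, hb2⟩ := hthird a c hac
      have := hpos a b c hb1.symm hac hb2
      rw [h0, zero_mul] at this
      exact lt_irrefl _ this
    have hsame : 0 < v i (J c) (J (oth c)) * v i (J c) (J a) := by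
      by_cases h : oth c = a
      · rw [h]
        exact mul_self_pos.mpr (hnz a hac)
      · exact hpos (oth c) a c h (hoth c) hac
    by_cases h : 0 < v i (J c) (J (oth c))
    · have h1 : sg i c = true := by simp only [sg, decide_eq_true_eq]; exact h
      rw [if_pos h1, one_mul]
      exact (pos_iff_pos_of_mul_pos hsame).mp h
    · have h1 : ¬ sg i c = true := by simp only [sg, decide_eq_true_eq]; exact h
      rw [if_neg h1]
      have h2 : v i (J c) (J (oth c)) < 0 := lt_of_le_of_ne (not_lt.mp h) (hnz _ (hoth c))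
      have h3 : v i (J c) (J a) < 0 := by
        by_contra hcon
        push Not at hcon
        have := mul_nonpos_of_nonpos_of_nonneg h2.le hcon
        linarith
      linarith
  -- pigeonhole
  obtain ⟨σ, hσ⟩ : ∃ σ : Fin S → Bool,
      (Finset.univ.filter fun i : Fin m => (J, i) ∈ good).card ≤
      2 ^ S * (Finset.univ.filter fun i : Fin m => (J, i) ∈ good ∧ sg i = σ).card := by
    by_contra hcon
    push Not at hcon
    have h1 : (Finset.univ.filter fun i : Fin m => (J, i) ∈ good).card ≤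
        ∑ σ : Fin S → Bool, (Finset.univ.filter fun i : Fin m => (J, i) ∈ good ∧ sg i = σ).card := by
      calc _ ≤ ((Finset.univ : Finset (Fin S → Bool)).biUnion fun σ =>
            Finset.univ.filter fun i : Fin m => (J, i) ∈ good ∧ sg i = σ).card := by
            refine Finset.card_le_card ?_
            intro i hi
            rw [Finset.mem_filter] at hi
            rw [Finset.mem_biUnion]
            exact ⟨sg i, Finset.mem_univ _, Finset.mem_filter.mpr ⟨Finset.mem_univ _, hi.2, rfl⟩⟩
        _ ≤ _ := Finset.card_biUnion_le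
    have h2 : ∑ σ : Fin S → Bool,
        2 ^ S * (Finset.univ.filter fun i : Fin m => (J, i) ∈ good ∧ sg i = σ).card <
        ∑ _σ : Fin S → Bool, (Finset.univ.filter fun i : Fin m => (J, i) ∈ good).card :=
      Finset.sum_lt_sum_of_nonempty Finset.univ_nonempty fun σ _ => hcon σ
    rw [← Finset.mul_sum, Finset.sum_const, Finset.card_univ, Fintype.card_fun, Fintype.card_bool,
      Fintype.card_fin, smul_eq_mul] at h2
    have h3 := Nat.lt_of_mul_lt_mul_left h2
    omega
  refine ⟨J, fun c => if σ c = true then 1 else -1, ?_, ?_⟩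
  · intro a
    by_cases h : σ a = true
    · left; exact if_pos h
    · right; exact if_neg h
  · have h1 : (Finset.univ.filter fun i : Fin m => (J, i) ∈ good ∧ sg i = σ).card ≤
        Nat.card {i : Fin m // (∀ a, E i (J a)) ∧
          ∀ a b, b ≠ a → 0 < (if σ b = true then (1 : ℝ) else -1) * v i (J b) (J a)} := by
      rw [Nat.card_eq_fintype_card, Fintype.card_subtype]
      refine Finset.card_le_card fun i hi => ?_
      rw [Finset.mem_filter] at hi ⊢
      refine ⟨Finset.mem_univ _, ?_, ?_⟩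
      · have := hi.2.1
        rw [hgood, Finset.mem_filter] at this
        exact this.2.1
      · intro a b hba
        have := hsg i hi.2.1 a b (fun h => hba h.symm)
        rw [hi.2.2] at this
        exact this
    have h2 : ((Finset.univ.filter fun i : Fin m => (J, i) ∈ good).card : ℝ) ≤
        2 ^ S * ((Finset.univ.filter fun i : Fin m => (J, i) ∈ good ∧ sg i = σ).card : ℝ) := by
      exact_mod_cast hσ
    have h3 : ((Finset.univ.filter fun i : Fin m => (J, i) ∈ good ∧ sg i = σ).card : ℝ) ≤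
        (Nat.card {i : Fin m // (∀ a, E i (J a)) ∧
          ∀ a b, b ≠ a → 0 < (if σ b = true then (1 : ℝ) else -1) * v i (J b) (J a)} : ℝ) := by
      exact_mod_cast h1
    refine le_trans ?_ h3
    have h4 : (0:ℝ) < 2 ^ S := by positivity
    have h5 : β ^ S / 2 * m ≤
        2 ^ S * ((Finset.univ.filter fun i : Fin m => (J, i) ∈ good ∧ sg i = σ).card : ℝ) :=
      hJ.trans h2
    calc β ^ S / (2 * 2 ^ S) * m = (β ^ S / 2 * m) / 2 ^ S := by field_simp
      _ ≤ _ := by rw [div_le_iff₀ h4, mul_comm]; linarith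

end Pool.Agent.HBX
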