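import Mathlib

/-! Two families of convex sets in space, one of bounded complexity: common definitions. -/

namespace Pool.Agent.HBX

/-- points of space -/
abbrev P3 := EuclideanSpace ℝ (Fin 3)

/-- value at `p` of the affine function with coefficient vector `g` -/
def ev (g : Fin 4 → ℝ) (p : P3) : ℝ := g 0 + g 1 * p 0 + g 2 * p 1 + g 3 * p 2

/-- 4 x 4 determinant with the given rows -/
noncomputable def det4 (x y z w : Fin 4 → ℝ) : ℝ := Matrix.det (Matrix.of ![x, y, z, w])

end Pool.Agent.HBX
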