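import Pool.Agent.HBX.Defs

open scoped BigOperators

namespace Pool.Agent.HBX

theorem ev_add_smul (g : Fin 4 → ℝ) (p q : P3) (s t : ℝ) (h : s + t = 1) :
    ev g (s • p + t • q) = s * ev g p + t * ev g q := by
  simp only [ev, PiLp.add_apply, PiLp.smul_apply, smul_eq_mul]
  have : g 0 = (s + t) * g 0 := by rw [h, one_mul]
  rw [this]
  obtain rfl : t = 1 - s := by linarith
  ring

theorem ev_sum {ι : Type} [Fintype ι] (g : Fin 4 → ℝ) (p : ι → P3) (w : ι → ℝ)
    (h : ∑ i, w i = 1) : ev g (∑ i, w i • p i) = ∑ i, w i * ev g (p i) := by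
  have h1 : ∀ c : Fin 3, (∑ i, w i • p i) c = ∑ i, w i * p i c := by
    intro c
    simp
  simp only [ev, h1]
  have h2 : g 0 = ∑ i, w i * g 0 := by rw [← Finset.sum_mul, h, one_mul]
  conv_lhs => rw [h2]
  rw [Finset.mul_sum, Finset.mul_sum, Finset.mul_sum, ← Finset.sum_add_distrib,
    ← Finset.sum_add_distrib, ← Finset.sum_add_distrib]
  refine Finset.sum_congr rfl fun i _ => ?_
  ring

theorem ev_lin {ι : Type} [Fintype ι] (P : ι → Fin 4 → ℝ) (c : ι → ℝ) (p : P3) :
    ev (∑ k, c k • P k) p = ∑ k, c k * ev (P k) p := by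
  simp only [ev, Finset.sum_apply, Pi.smul_apply, smul_eq_mul, Finset.sum_mul]
  rw [← Finset.sum_add_distrib, ← Finset.sum_add_distrib, ← Finset.sum_add_distrib]
  refine Finset.sum_congr rfl fun i _ => ?_
  ring

end Pool.Agent.HBX
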