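import Pool.Agent.HBX.Defs

open scoped BigOperators

namespace Pool.Agent.HBX

theorem ker_line (φ ψ : Fin 4 → ℝ) (h : LinearIndependent ℝ ![φ, ψ]) :
    ∃ x d : P3, d ≠ 0 ∧ ∀ q, ev φ q = 0 → ev ψ q = 0 → ∃ r : ℝ, q = x + r • d := by
  by_cases hx : ∃ x : P3, ev φ x = 0 ∧ ev ψ x = 0
  · obtain ⟨x, h1, h2⟩ := hx
    rw [LinearIndependent.pair_iff] at h
    simp only [ev] at h1 h2
    set d1 : ℝ := φ 2 * ψ 3 - φ 3 * ψ 2 with hd1
    set d2 : ℝ := φ 3 * ψ 1 - φ 1 * ψ 3 with hd2
    set d3 : ℝ := φ 1 * ψ 2 - φ 2 * ψ 1 with hd3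
    have hne : ¬ (d1 = 0 ∧ d2 = 0 ∧ d3 = 0) := by
      rintro ⟨e1, e2, e3⟩
      rw [hd1] at e1
      rw [hd2] at e2
      rw [hd3] at e3
      have k1 : φ 1 = 0 := by
        have h4 : ψ 1 • φ + (-φ 1) • ψ = 0 := by
          funext k
          fin_cases k
          · simp
            linear_combination (ψ 1) * h1 - (φ 1) * h2 + (x 1) * e3 - (x 2) * e2
          · simp
            ring
          · simp
            linear_combination -e3
          · simp
            linear_combination e2
        have := (h _ _ h4).2
        linarith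
      have k2 : φ 2 = 0 := by
        have h4 : ψ 2 • φ + (-φ 2) • ψ = 0 := by
          funext k
          fin_cases k
          · simp
            linear_combination (ψ 2) * h1 - (φ 2) * h2 - (x 0) * e3 + (x 2) * e1
          · simp
            linear_combination e3
          · simp
            ring
          · simp
            linear_combination -e1
        have := (h _ _ h4).2
        linarith
      have k3 : φ 3 = 0 := by
        have h4 : ψ 3 • φ + (-φ 3) • ψ = 0 := by
          funext k
          fin_cases k
          · simp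
            linear_combination (ψ 3) * h1 - (φ 3) * h2 + (x 0) * e2 - (x 1) * e1
          · simp
            linear_combination -e2
          · simp
            linear_combination e1
          · simp
            ring
        have := (h _ _ h4).2
        linarith
      have k0 : φ 0 = 0 := by rw [k1, k2, k3] at h1; linarith
      have h5 : (1 : ℝ) • φ + (0 : ℝ) • ψ = 0 := by
        funext k
        fin_cases k <;> simp [k0, k1, k2, k3]
      exact one_ne_zero (h _ _ h5).1
    refine ⟨x, !₂[d1, d2, d3], ?_, ?_⟩
    · intro hd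
      apply hne
      have a0 := congrFun (congrArg WithLp.ofLp hd) 0
      have a1 := congrFun (congrArg WithLp.ofLp hd) 1
      have a2 := congrFun (congrArg WithLp.ofLp hd) 2
      simp at a0 a1 a2
      exact ⟨a0, a1, a2⟩
    · intro q h3 h4
      simp only [ev] at h3 h4
      set u0 : ℝ := q 0 - x 0 with hu0
      set u1 : ℝ := q 1 - x 1 with hu1
      set u2 : ℝ := q 2 - x 2 with hu2
      have o1 : φ 1 * u0 + φ 2 * u1 + φ 3 * u2 = 0 := by rw [hu0, hu1, hu2]; linarith
      have o2 : ψ 1 * u0 + ψ 2 * u1 + ψ 3 * u2 = 0 := by rw [hu0, hu1, hu2]; linarith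
      have c1 : u1 * d3 - u2 * d2 = 0 := by
        rw [hd3, hd2]; linear_combination (φ 1) * o2 - (ψ 1) * o1
      have c2 : u2 * d1 - u0 * d3 = 0 := by
        rw [hd1, hd3]; linear_combination (φ 2) * o2 - (ψ 2) * o1
      have c3 : u0 * d2 - u1 * d1 = 0 := by
        rw [hd1, hd2]; linear_combination (φ 3) * o2 - (ψ 3) * o1
      have hpos : d1 ^ 2 + d2 ^ 2 + d3 ^ 2 ≠ 0 := by
        intro h0
        apply hne
        have p1 := sq_nonneg d1
        have p2 := sq_nonneg d2
        have p3 := sq_nonneg d3
        refine ⟨?_, ?_, ?_⟩ <;> refine pow_eq_zero_iff (two_ne_zero) |>.1 ?_ <;> linarith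
      refine ⟨(u0 * d1 + u1 * d2 + u2 * d3) / (d1 ^ 2 + d2 ^ 2 + d3 ^ 2), ?_⟩
      ext k
      fin_cases k
      · simp
        have : q 0 = x 0 + u0 := by rw [hu0]; ring
        rw [this]
        field_simp
        linear_combination d2 * c3 - d3 * c2
      · simp
        have : q 1 = x 1 + u1 := by rw [hu1]; ring
        rw [this]
        field_simp
        linear_combination d3 * c1 - d1 * c3
      · simp
        have : q 2 = x 2 + u2 := by rw [hu2]; ring
        rw [this]
        field_simp
        linear_combination d1 * c2 - d2 * c1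
  · refine ⟨0, !₂[1, 0, 0], ?_, ?_⟩
    · intro hd
      have a0 := congrFun (congrArg WithLp.ofLp hd) 0
      simp at a0
    · intro q h1 h2
      exact absurd ⟨q, h1, h2⟩ hx

end Pool.Agent.HBX
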