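import Pool.Agent.HBX.PL
import Pool.Agent.HBX.CR
import Pool.Agent.OTR.S6

open scoped BigOperators

namespace Pool.Agent.HBX

def Rel (C : ℝ) (g : ℕ → Fin 4 → ℝ) (x : Fin 6 → ℕ) : Fin 3 → Prop
  | 0 => C * |det4 (g (x 0)) (g (x 1)) (g (x 4)) (g (x 5)) * det4 (g (x 2)) (g (x 3)) (g (x 4)) (g (x 5))|
      ≤ |det4 (g (x 0)) (g (x 2)) (g (x 4)) (g (x 5)) * det4 (g (x 1)) (g (x 3)) (g (x 4)) (g (x 5))|
  | 1 => C * |det4 (g (x 0)) (g (x 1)) (g (x 2)) (g (x 5)) * det4 (g (x 0)) (g (x 3)) (g (x 4)) (g (x 5))|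
      ≤ |det4 (g (x 0)) (g (x 1)) (g (x 3)) (g (x 5)) * det4 (g (x 0)) (g (x 2)) (g (x 4)) (g (x 5))|
  | 2 => C * |det4 (g (x 0)) (g (x 1)) (g (x 2)) (g (x 3)) * det4 (g (x 0)) (g (x 1)) (g (x 4)) (g (x 5))|
      ≤ |det4 (g (x 0)) (g (x 1)) (g (x 2)) (g (x 4)) * det4 (g (x 0)) (g (x 1)) (g (x 3)) (g (x 5))|

theorem ra_cyc (x y u v : Fin 4 → ℝ) : det4 x y u v = det4 u v x y := by
  rw [det4_swap23 x u y v, det4_swap12 u x y v, det4_swap34 u x v y, det4_swap23 u v x y]
  ring

theorem ra_cyc2 (a x y b : Fin 4 → ℝ) : det4 a x y b = det4 a b x y := by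
  rw [det4_swap34 a x b y, det4_swap23 a b x y]
  ring

theorem ra_mono {x : Fin 6 → ℕ} (h0 : x 0 < x 1) (h1 : x 1 < x 2) (h2 : x 2 < x 3)
    (h3 : x 3 < x 4) (h4 : x 4 < x 5) : StrictMono x := by
  rw [Fin.strictMono_iff_lt_succ]
  intro i
  fin_cases i
  · exact h0
  · exact h1
  · exact h2
  · exact h3
  · exact h4

theorem ra_abs (ε a b : ℝ) (hε : ε = 1 ∨ ε = -1) (ha : 0 < ε * a) (hb : 0 < ε * b) :
    |a * b| = (ε * a) * (ε * b) := by
  have h1 : (ε * a) * (ε * b) = a * b := by
    rcases hε with h | h <;> rw [h] <;> ring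
  rw [← h1]
  exact abs_of_pos (mul_pos ha hb)

/-- the colour of a 6-set -/
noncomputable def ra_col (C : ℝ) (g : ℕ → Fin 4 → ℝ) (σ : Finset ℕ) : Bool × (Fin 3 → Bool) := by
  classical
  exact if h : σ.card = 6 then
    (decide (0 < det4 (g (σ.orderEmbOfFin h 0)) (g (σ.orderEmbOfFin h 1))
        (g (σ.orderEmbOfFin h 2)) (g (σ.orderEmbOfFin h 3))),
      fun k => decide (Rel C g (fun s => σ.orderEmbOfFin h s) k))
  else (true, fun _ => true)

theorem ra_col_eq (C : ℝ) (g : ℕ → Fin 4 → ℝ) (x : Fin 6 → ℕ) (hx : StrictMono x) :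
    ra_col C g (Finset.univ.image x) = by
      classical exact (decide (0 < det4 (g (x 0)) (g (x 1)) (g (x 2)) (g (x 3))),
        fun k => decide (Rel C g x k)) := by
  classical
  have hcard : (Finset.univ.image x).card = 6 := by
    rw [Finset.card_image_of_injective _ hx.injective]; simp
  have hx2 : x = (Finset.univ.image x).orderEmbOfFin hcard :=
    Finset.orderEmbOfFin_unique hcard (fun i => Finset.mem_image_of_mem _ (Finset.mem_univ i)) hx
  have hx3 : ∀ i, (Finset.univ.image x).orderEmbOfFin hcard i = x i := fun i =>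
    (congrFun hx2 i).symm
  unfold ra_col
  rw [dif_pos hcard]
  simp only [hx3]

theorem homog (T : ℕ) (C : ℝ) : ∃ S : ℕ, ∀ g : ℕ → Fin 4 → ℝ,
    (∀ a b c d, a < b → b < c → c < d → d < S → det4 (g a) (g b) (g c) (g d) ≠ 0) →
    ∃ (e : Fin T → ℕ) (ε : ℝ), StrictMono e ∧ (∀ t, e t < S) ∧ (ε = 1 ∨ ε = -1) ∧
      (∀ a b c d : Fin T, a < b → b < c → c < d →
        0 < ε * det4 (g (e a)) (g (e b)) (g (e c)) (g (e d))) ∧
      ∀ x : Fin 6 → Fin T, StrictMono x → ∀ k, Rel C g (fun s => e (x s)) k := by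
  classical
  obtain ⟨n, hn⟩ := cr_big C
  obtain ⟨M, hM⟩ := Pool.Agent.OTR.ramsey_finset (Bool × (Fin 3 → Bool)) 6 (T + n + 6)
  refine ⟨M, fun g hg => ?_⟩
  obtain ⟨Z, hZ, hZc, κ, hκ⟩ := hM (Finset.range M) (by simp) (ra_col C g)
  set s := T + n + 6 with hs
  let y : ℕ → ℕ := fun t => if h : t < s then Z.orderEmbOfFin hZc ⟨t, h⟩ else 0
  have hymem : ∀ t, t < s → y t ∈ Z := by
    intro t ht
    simp only [y, dif_pos ht]
    exact Finset.orderEmbOfFin_mem _ _ _
  have hylt : ∀ i j, i < j → j < s → y i < y j := by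
    intro i j hij hj
    simp only [y, dif_pos hj, dif_pos (hij.trans hj)]
    exact (Z.orderEmbOfFin hZc).strictMono (by exact hij)
  have hyM : ∀ t, t < s → y t < M := fun t ht => Finset.mem_range.1 (hZ (hymem t ht))
  -- homogeneity
  have hom : ∀ x : Fin 6 → ℕ, StrictMono x → x 5 < s →
      (decide (0 < det4 (g (y (x 0))) (g (y (x 1))) (g (y (x 2))) (g (y (x 3)))),
        fun k => decide (Rel C g (fun t => y (x t)) k)) = κ := by
    intro x hx h5
    have hle : ∀ i : Fin 6, x i < s := fun i =>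
      lt_of_le_of_lt (hx.monotone (Fin.le_last i)) h5
    have hyx : StrictMono fun t => y (x t) := fun i j hij => hylt _ _ (hx hij) (hle j)
    have h1 := ra_col_eq C g (fun t => y (x t)) hyx
    have h2 := hκ (Finset.univ.image fun t => y (x t)) (by
      intro a ha
      obtain ⟨i, -, rfl⟩ := Finset.mem_image.1 ha
      exact hymem _ (hle i)) (by
      rw [Finset.card_image_of_injective _ hyx.injective]; simp)
    rw [h1] at h2
    exact h2
  let ε : ℝ := if κ.1 = true then 1 else -1
  have hε : ε = 1 ∨ ε = -1 := by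
    by_cases h : κ.1 = true
    · left; simp [ε, h]
    · right; simp [ε, h]
  have hsg : ∀ a b c d, a < b → b < c → c < d → d + 2 < s →
      0 < ε * det4 (g (y a)) (g (y b)) (g (y c)) (g (y d)) := by
    intro a b c d hab hbc hcd hd
    have hne := hg (y a) (y b) (y c) (y d) (hylt _ _ hab (by omega)) (hylt _ _ hbc (by omega))
      (hylt _ _ hcd (by omega)) (hyM _ (by omega))
    have h1 := hom ![a, b, c, d, d + 1, d + 2]
      (ra_mono (by simpa using hab) (by simpa using hbc) (by simpa using hcd)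
        (by simp) (by simp)) (by simpa using hd)
    have h2 := congrArg Prod.fst h1
    simp only [Matrix.cons_val_zero, Matrix.cons_val_one, Matrix.cons_val] at h2
    by_cases hk : κ.1 = true
    · rw [hk] at h2
      have h3 := of_decide_eq_true h2
      simp only [ε, if_pos hk, one_mul]
      exact h3
    · have hk2 : κ.1 = false := by simpa using hk
      rw [hk2] at h2
      have h3 := of_decide_eq_false h2
      have h4 : det4 (g (y a)) (g (y b)) (g (y c)) (g (y d)) < 0 :=
        lt_of_le_of_ne (not_lt.1 h3) hne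
      simp only [ε, if_neg hk]
      linarith
  have hrel : ∀ k, ∀ x x' : Fin 6 → ℕ, StrictMono x → StrictMono x' → x 5 < s → x' 5 < s →
      Rel C g (fun t => y (x t)) k → Rel C g (fun t => y (x' t)) k := by
    intro k x x' hx hx' h5 h5' hR
    have h1 := congrFun (congrArg Prod.snd (hom x hx h5)) k
    have h2 := congrFun (congrArg Prod.snd (hom x' hx' h5')) k
    simp only at h1 h2
    rw [← h2] at h1
    have h3 : decide (Rel C g (fun t => y (x t)) k) = true := decide_eq_true hR
    rw [h3] at h1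
    exact of_decide_eq_true h1.symm
  -- each relation holds once
  have hone : ∀ k : Fin 3, ∃ x : Fin 6 → ℕ, StrictMono x ∧ x 5 < s ∧
      Rel C g (fun t => y (x t)) k := by
    intro k
    fin_cases k
    · -- k = 0
      obtain ⟨i, j, k, m, hij, hjk, hkm, hmn, hC⟩ := hn
        (fun i j => ε * det4 (g (y i)) (g (y j)) (g (y n)) (g (y (n + 1))))
        (fun i j hij hj => hsg _ _ _ _ hij hj (by omega) (by omega))
        (by
          intro i j k m _ _ _ _
          have h := plucker (g (y n)) (g (y (n + 1))) (g (y i)) (g (y j)) (g (y k)) (g (y m))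
          simp only [ra_cyc _ _ (g (y n)) (g (y (n + 1)))]
          linear_combination ε ^ 2 * h)
      refine ⟨![i, j, k, m, n, n + 1], ra_mono (by simpa using hij) (by simpa using hjk)
        (by simpa using hkm) (by simpa using hmn) (by simp), by simp [hs]; omega, ?_⟩
      show C * _ ≤ _
      simp only [Matrix.cons_val_zero, Matrix.cons_val_one, Matrix.cons_val]
      rw [ra_abs ε _ _ hε (hsg _ _ _ _ hij (by omega) (by omega) (by omega))
          (hsg _ _ _ _ hkm (by omega) (by omega) (by omega)),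
        ra_abs ε _ _ hε (hsg _ _ _ _ (by omega) (by omega) (by omega) (by omega))
          (hsg _ _ _ _ (by omega) (by omega) (by omega) (by omega))]
      exact hC
    · -- k = 1
      obtain ⟨i, j, k, m, hij, hjk, hkm, hmn, hC⟩ := hn
        (fun i j => ε * det4 (g (y 0)) (g (y (i + 1))) (g (y (j + 1))) (g (y (n + 1))))
        (fun i j hij hj => hsg _ _ _ _ (by omega) (by omega) (by omega) (by omega))
        (by
          intro i j k m _ _ _ _
          have h := plucker (g (y 0)) (g (y (n + 1))) (g (y (i + 1))) (g (y (j + 1)))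
            (g (y (k + 1))) (g (y (m + 1)))
          simp only [ra_cyc2 (g (y 0)) _ _ (g (y (n + 1)))]
          linear_combination ε ^ 2 * h)
      refine ⟨![0, i + 1, j + 1, k + 1, m + 1, n + 1], ra_mono (by simp) (by simpa using hij)
        (by simpa using hjk) (by simpa using hkm) (by simpa using hmn), by simp [hs]; omega, ?_⟩
      show C * _ ≤ _
      simp only [Matrix.cons_val_zero, Matrix.cons_val_one, Matrix.cons_val]
      rw [ra_abs ε _ _ hε (hsg _ _ _ _ (by omega) (by omega) (by omega) (by omega))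
          (hsg _ _ _ _ (by omega) (by omega) (by omega) (by omega)),
        ra_abs ε _ _ hε (hsg _ _ _ _ (by omega) (by omega) (by omega) (by omega))
          (hsg _ _ _ _ (by omega) (by omega) (by omega) (by omega))]
      exact hC
    · -- k = 2
      obtain ⟨i, j, k, m, hij, hjk, hkm, hmn, hC⟩ := hn
        (fun i j => ε * det4 (g (y 0)) (g (y 1)) (g (y (i + 2))) (g (y (j + 2))))
        (fun i j hij hj => hsg _ _ _ _ (by omega) (by omega) (by omega) (by omega))
        (by
          intro i j k m _ _ _ _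
          have h := plucker (g (y 0)) (g (y 1)) (g (y (i + 2))) (g (y (j + 2)))
            (g (y (k + 2))) (g (y (m + 2)))
          linear_combination ε ^ 2 * h)
      refine ⟨![0, 1, i + 2, j + 2, k + 2, m + 2], ra_mono (by simp) (by simp)
        (by simpa using hij) (by simpa using hjk) (by simpa using hkm), by simp [hs]; omega, ?_⟩
      show C * _ ≤ _
      simp only [Matrix.cons_val_zero, Matrix.cons_val_one, Matrix.cons_val]
      rw [ra_abs ε _ _ hε (hsg _ _ _ _ (by omega) (by omega) (by omega) (by omega))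
          (hsg _ _ _ _ (by omega) (by omega) (by omega) (by omega)),
        ra_abs ε _ _ hε (hsg _ _ _ _ (by omega) (by omega) (by omega) (by omega))
          (hsg _ _ _ _ (by omega) (by omega) (by omega) (by omega))]
      exact hC
  refine ⟨fun t => y t, ε, ?_, fun t => hyM _ (by omega), hε, ?_, ?_⟩
  · intro a b hab
    exact hylt _ _ hab (by omega)
  · intro a b c d hab hbc hcd
    exact hsg _ _ _ _ hab hbc hcd (by omega)
  · intro x hx k
    obtain ⟨x0, hx0, h5, hR⟩ := hone k
    exact hrel k x0 (fun t => (x t : ℕ)) hx0 (fun i j hij => hx hij) h5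
      (by have := (x 5).isLt; simp only [hs]; omega) hR

end Pool.Agent.HBX
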