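import Pool.Agent.HBX.PL
import Pool.Agent.HBX.RA

/-! Two families, one of bounded complexity: lacunary coordinates. -/

namespace Pool.Agent.HBX

theorem la_step {C u0 u1 u2 v0 v1 v2 : ℝ} (hC : 1 ≤ C) (hu0 : 0 < u0) (hu1 : 0 < u1)
    (hv1 : 0 < v1)
    (h01 : C * (u1 * v0) ≤ v1 * u0) (h12 : C * (u2 * v1) ≤ v2 * u1)
    (hu2 : 0 < u2) (hv0 : 0 < v0) : C * (u2 * v0) ≤ v2 * u0 := by
  have hp : 0 < u1 * v1 := mul_pos hu1 hv1
  have h1 : C * (u1 * v0) * (C * (u2 * v1)) ≤ v1 * u0 * (v2 * u1) :=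
    mul_le_mul h01 h12 (by positivity) (by positivity)
  have h2 : C * (u2 * v0) * (u1 * v1) ≤ C * (u1 * v0) * (C * (u2 * v1)) := by
    have h3 : 0 ≤ (u2 * v0) * (u1 * v1) * C := by positivity
    nlinarith [mul_le_mul_of_nonneg_left hC h3]
  have h4 : C * (u2 * v0) * (u1 * v1) ≤ v2 * u0 * (u1 * v1) := by nlinarith
  exact le_of_mul_le_mul_right h4 hp

theorem la_mono {N : ℕ} (t : Fin 6 → Fin (N + 6)) (h0 : t 0 < t 1) (h1 : t 1 < t 2)
    (h2 : t 2 < t 3) (h3 : t 3 < t 4) (h4 : t 4 < t 5) : StrictMono t := by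
  refine Fin.strictMono_iff_lt_succ.2 fun i => ?_
  fin_cases i
  · exact h0
  · exact h1
  · exact h2
  · exact h3
  · exact h4

theorem la_abs {ε x y z w C : ℝ} (hε : ε = 1 ∨ ε = -1) (hx : 0 < ε * x) (hy : 0 < ε * y)
    (hz : 0 < ε * z) (hw : 0 < ε * w) (h : C * |x * y| ≤ |z * w|) :
    C * ((ε * x) * (ε * y)) ≤ (ε * z) * (ε * w) := by
  rcases hε with rfl | rfl
  · simp only [one_mul] at hx hy hz hw ⊢
    rwa [abs_of_pos (mul_pos hx hy), abs_of_pos (mul_pos hz hw)] at h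
  · have h1 : x * y = (-1 * x) * (-1 * y) := by ring
    have h2 : z * w = (-1 * z) * (-1 * w) := by ring
    rwa [h1, h2, abs_of_pos (mul_pos hx hy), abs_of_pos (mul_pos hz hw)] at h

theorem lac (N : ℕ) (C : ℝ) (hC : 1 ≤ C) : ∃ S : ℕ, ∀ g : Fin S → Fin 4 → ℝ,
    (∀ a b c d : Fin S, a < b → b < c → c < d → det4 (g a) (g b) (g c) (g d) ≠ 0) →
    ∃ (e : Fin N → Fin S) (P : Fin 4 → Fin 4 → ℝ) (c : Fin N → Fin 4 → ℝ),
      StrictMono e ∧ LinearIndependent ℝ P ∧ (∀ l, g (e l) = ∑ k, c l k • P k) ∧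
      (∀ l k, 0 < c l k) ∧
      ∀ l l' : Fin N, l < l' → ∀ k k' : Fin 4, k < k' →
        C * (c l k' * c l' k) ≤ c l' k' * c l k := by
  obtain ⟨S, hS⟩ := homog (N + 6) C
  refine ⟨S, fun g hg => ?_⟩
  let G : ℕ → Fin 4 → ℝ := fun n => if h : n < S then g ⟨n, h⟩ else 0
  have hG : ∀ n (h : n < S), G n = g ⟨n, h⟩ := fun n h => dif_pos h
  obtain ⟨e, ε, he, heS, hε, hpos, hrel⟩ := hS G (by
    intro a b c d hab hbc hcd hd
    rw [hG a (by omega), hG b (by omega), hG c (by omega), hG d hd]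
    exact hg _ _ _ _ hab hbc hcd)
  -- the indices
  let a1 : Fin (N + 6) := ⟨0, by omega⟩
  let a2 : Fin (N + 6) := ⟨1, by omega⟩
  let a3 : Fin (N + 6) := ⟨2, by omega⟩
  let b3 : Fin (N + 6) := ⟨N + 3, by omega⟩
  let b2 : Fin (N + 6) := ⟨N + 4, by omega⟩
  let b1 : Fin (N + 6) := ⟨N + 5, by omega⟩
  let m : Fin N → Fin (N + 6) := fun l => ⟨3 + l.1, by omega⟩
  have h12 : a1 < a2 := by show (0 : ℕ) < 1; omega
  have h23 : a2 < a3 := by show (1 : ℕ) < 2; omega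
  have h3m : ∀ l, a3 < m l := fun l => by show (2 : ℕ) < 3 + l.1; omega
  have hm3 : ∀ l, m l < b3 := fun l => by show 3 + l.1 < N + 3; omega
  have hb32 : b3 < b2 := by show N + 3 < N + 4; omega
  have hb21 : b2 < b1 := by show N + 4 < N + 5; omega
  have hmm : ∀ l l' : Fin N, l < l' → m l < m l' := fun l l' h => by
    show 3 + l.1 < 3 + l'.1
    have : l.1 < l'.1 := h
    omega
  let D : Fin (N + 6) → Fin (N + 6) → Fin (N + 6) → Fin (N + 6) → ℝ := fun a b c d =>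
    det4 (G (e a)) (G (e b)) (G (e c)) (G (e d))
  have hD : ∀ a b c d, a < b → b < c → c < d → 0 < ε * D a b c d := hpos
  have hne : ∀ a b c d, a < b → b < c → c < d → D a b c d ≠ 0 := by
    intro a b c d h1 h2 h3 h0
    have := hD a b c d h1 h2 h3
    rw [h0, mul_zero] at this
    exact lt_irrefl _ this
  have ha3b3 : a3 < b3 := by show (2 : ℕ) < N + 3; omega
  obtain ⟨P, hP, hco⟩ := coords (G (e a1)) (G (e a2)) (G (e a3)) (G (e b3)) (G (e b2)) (G (e b1))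
    (hne a1 b3 b2 b1 (h12.trans (h23.trans ha3b3)) hb32 hb21)
    (hne a1 a2 b2 b1 h12 (h23.trans (ha3b3.trans hb32)) hb21)
    (hne a1 a2 a3 b1 h12 h23 (ha3b3.trans (hb32.trans hb21)))
  have hεε : ε * ε = 1 := by rcases hε with rfl | rfl <;> norm_num
  have hε0 : ε ≠ 0 := by rcases hε with rfl | rfl <;> norm_num
  let c : Fin N → Fin 4 → ℝ := fun l => ![ε * D (m l) b3 b2 b1, ε * D a1 (m l) b2 b1,
    ε * D a1 a2 (m l) b1, ε * D a1 a2 a3 (m l)]
  have c0 : ∀ l, c l 0 = ε * D (m l) b3 b2 b1 := fun l => rfl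
  have c1 : ∀ l, c l 1 = ε * D a1 (m l) b2 b1 := fun l => rfl
  have c2 : ∀ l, c l 2 = ε * D a1 a2 (m l) b1 := fun l => rfl
  have c3 : ∀ l, c l 3 = ε * D a1 a2 a3 (m l) := fun l => rfl
  have hc0 : ∀ l, 0 < c l 0 := fun l => hD _ _ _ _ (hm3 l) hb32 hb21
  have hc1 : ∀ l, 0 < c l 1 := fun l =>
    hD _ _ _ _ (h12.trans (h23.trans (h3m l))) ((hm3 l).trans hb32) hb21
  have hc2 : ∀ l, 0 < c l 2 := fun l =>
    hD _ _ _ _ h12 (h23.trans (h3m l)) ((hm3 l).trans (hb32.trans hb21))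
  have hc3 : ∀ l, 0 < c l 3 := fun l => hD _ _ _ _ h12 h23 (h3m l)
  have hcpos : ∀ l k, 0 < c l k := by
    intro l k
    fin_cases k
    · exact hc0 l
    · exact hc1 l
    · exact hc2 l
    · exact hc3 l
  -- the three adjacent relations
  have r0 : ∀ l l' : Fin N, l < l' → C * (c l 1 * c l' 0) ≤ c l' 1 * c l 0 := by
    intro l l' hl
    have h := hrel ![a1, m l, m l', b3, b2, b1] (la_mono _ (h12.trans (h23.trans (h3m l)))
      (hmm l l' hl) (hm3 l') hb32 hb21) 0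
    exact la_abs hε (hc1 l) (hc0 l') (hc1 l') (hc0 l) h
  have r1 : ∀ l l' : Fin N, l < l' → C * (c l 2 * c l' 1) ≤ c l' 2 * c l 1 := by
    intro l l' hl
    have h := hrel ![a1, a2, m l, m l', b2, b1] (la_mono _ h12 (h23.trans (h3m l))
      (hmm l l' hl) ((hm3 l').trans hb32) hb21) 1
    exact la_abs hε (hc2 l) (hc1 l') (hc2 l') (hc1 l) h
  have r2 : ∀ l l' : Fin N, l < l' → C * (c l 3 * c l' 2) ≤ c l' 3 * c l 2 := by
    intro l l' hl
    have h := hrel ![a1, a2, a3, m l, m l', b1] (la_mono _ h12 h23 (h3m l)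
      (hmm l l' hl) ((hm3 l').trans (hb32.trans hb21))) 2
    exact la_abs hε (hc3 l) (hc2 l') (hc3 l') (hc2 l) h
  refine ⟨fun l => ⟨e (m l), heS _⟩, fun k => ε • P k, c, ?_, ?_, ?_, hcpos, ?_⟩
  · intro l l' hl
    exact he (hmm l l' hl)
  · have := hP.units_smul (fun _ : Fin 4 => Units.mk0 ε hε0)
    exact this
  · intro l
    have h1 := hco (G (e (m l)))
    have h2 : g ⟨e (m l), heS _⟩ = G (e (m l)) := (hG _ (heS _)).symm
    rw [h2, Fin.sum_univ_four, c0, c1, c2, c3]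
    have h3 : ∀ (x : ℝ) (v : Fin 4 → ℝ), (ε * x) • ε • v = x • v := by
      intro x v
      rw [smul_smul, mul_right_comm, hεε, one_mul]
    rw [h3, h3, h3, h3]
    exact h1
  · intro l l' hl k k' hk
    have s02 := la_step hC (hc0 l) (hc1 l) (hc1 l') (r0 l l' hl) (r1 l l' hl) (hc2 l) (hc0 l')
    have s13 := la_step hC (hc1 l) (hc2 l) (hc2 l') (r1 l l' hl) (r2 l l' hl) (hc3 l) (hc1 l')
    have s03 := la_step hC (hc0 l) (hc2 l) (hc2 l') s02 (r2 l l' hl) (hc3 l) (hc0 l')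
    fin_cases k <;> fin_cases k' <;>
      first
        | exact absurd hk (by decide)
        | exact r0 l l' hl
        | exact r1 l l' hl
        | exact r2 l l' hl
        | exact s02
        | exact s13
        | exact s03

end Pool.Agent.HBX
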