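import Pool.Agent.HBX.Defs

open scoped Topology BigOperators
open Filter

namespace Pool.Agent.HBX

/-- the moment vectors -/
noncomputable def pe_v (K : ℝ) (a : ℕ) : Fin 4 → ℝ := ![K, (a : ℝ), (a : ℝ) ^ 2, (a : ℝ) ^ 3]

theorem pe_ev (g v : Fin 4 → ℝ) (η : ℝ) (p : P3) : ev (g - η • v) p = ev g p - η * ev v p := by
  simp only [ev, Pi.sub_apply, Pi.smul_apply, smul_eq_mul]; ring

theorem pe_det (K : ℝ) (hK : K ≠ 0) (u : Fin 4 → ℕ) (hu : Function.Injective u) :
    Matrix.det (Matrix.of fun i => pe_v K (u i)) ≠ 0 := by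
  have h1 : (Matrix.of fun i => pe_v K (u i)) =
      Matrix.of fun i j => (![K, 1, 1, 1] : Fin 4 → ℝ) j *
        (Matrix.vandermonde fun i => (u i : ℝ)) i j := by
    ext i j
    fin_cases j <;> simp [pe_v, Matrix.vandermonde]
  rw [h1, Matrix.det_mul_row]
  refine mul_ne_zero ?_ ?_
  · simp [Fin.prod_univ_succ, hK]
  · rw [Matrix.det_vandermonde_ne_zero_iff]
    intro i j h
    have h' : ((u i : ℕ) : ℝ) = (u j : ℕ) := h
    exact hu (by exact_mod_cast h')

theorem pe_evt (A B : Matrix (Fin 4) (Fin 4) ℝ) (hB : B.det ≠ 0) :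
    ∀ᶠ η : ℝ in 𝓝[>] 0, (A - η • B).det ≠ 0 := by
  classical
  let Q : Polynomial ℝ :=
    Matrix.det ((Polynomial.X : Polynomial ℝ) • (-B).map Polynomial.C + A.map Polynomial.C)
  have hQ : Q ≠ 0 := by
    intro h
    have h2 := Polynomial.coeff_det_X_add_C_card (-B) A
    change Q.coeff _ = _ at h2
    rw [h, Polynomial.coeff_zero, Matrix.det_neg] at h2
    simp only [Fintype.card_fin] at h2
    norm_num at h2
    exact hB h2.symm
  have hev : ∀ η : ℝ, Q.eval η = (A - η • B).det := by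
    intro η
    have h3 : Q.eval η = Polynomial.evalRingHom η Q := rfl
    rw [h3]
    simp only [Q]
    rw [RingHom.map_det]
    congr 1
    ext i j
    simp [RingHom.mapMatrix_apply]
    ring
  have hfin : Set.Finite {η : ℝ | Q.IsRoot η} := Polynomial.finite_setOfPred_isRoot hQ
  have hfin2 : Set.Finite ({η : ℝ | Q.IsRoot η} \ {0}) := hfin.subset Set.sdiff_subset
  have hmem : ({η : ℝ | Q.IsRoot η} \ {0})ᶜ ∈ 𝓝 (0 : ℝ) :=
    hfin2.isClosed.isOpen_compl.mem_nhds (by simp)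
  have h4 : ∀ᶠ η : ℝ in 𝓝[>] 0, η ∈ ({η : ℝ | Q.IsRoot η} \ {0})ᶜ :=
    mem_nhdsWithin_of_mem_nhds hmem
  filter_upwards [h4, self_mem_nhdsWithin] with η h5 h6 h7
  apply h5
  refine ⟨?_, ?_⟩
  · simp only [Set.mem_ofPred_eq, Polynomial.IsRoot.def]
    rw [hev, h7]
  · simp only [Set.mem_singleton_iff]
    exact ne_of_gt h6

/-- ROW PE: perturbation into general position -/
theorem perturb {S : ℕ} (g : Fin S → Fin 4 → ℝ) (I : Type) [Fintype I] (p : I → Fin S → P3)
    (h0 : ∀ i a, ev (g a) (p i a) = 0) (h1 : ∀ i a b, b ≠ a → 0 < ev (g b) (p i a)) :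
    ∃ g' : Fin S → Fin 4 → ℝ, (∀ i a, ev (g' a) (p i a) < 0) ∧
      (∀ i a b, b ≠ a → 0 < ev (g' b) (p i a)) ∧
      ∀ a b c d : Fin S, a < b → b < c → c < d → det4 (g' a) (g' b) (g' c) (g' d) ≠ 0 := by
  classical
  let f : I → Fin S → ℝ := fun i a =>
    |((a : ℕ) : ℝ) * p i a 0 + ((a : ℕ) : ℝ) ^ 2 * p i a 1 + ((a : ℕ) : ℝ) ^ 3 * p i a 2|
  let K : ℝ := 1 + ∑ i, ∑ a, f i a
  have hf : ∀ i a, 0 ≤ f i a := fun i a => abs_nonneg _
  have hKf : ∀ i a, f i a < K := by
    intro i a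
    have h2 : f i a ≤ ∑ a, f i a := Finset.single_le_sum (fun a _ => hf i a) (Finset.mem_univ a)
    have h3 : ∑ a, f i a ≤ ∑ i, ∑ a, f i a :=
      Finset.single_le_sum (f := fun i => ∑ a, f i a)
        (fun i _ => Finset.sum_nonneg fun a _ => hf i a) (Finset.mem_univ i)
    show f i a < 1 + ∑ i, ∑ a, f i a
    linarith
  have hK : 0 < K := by
    have : 0 ≤ ∑ i, ∑ a, f i a :=
      Finset.sum_nonneg fun i _ => Finset.sum_nonneg fun a _ => hf i a
    show 0 < 1 + ∑ i, ∑ a, f i a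
    linarith
  have hvpos : ∀ (i : I) (a : Fin S), 0 < ev (pe_v K a) (p i a) := by
    intro i a
    have h2 := hKf i a
    have h3 := neg_abs_le (((a : ℕ) : ℝ) * p i a 0 + ((a : ℕ) : ℝ) ^ 2 * p i a 1 +
      ((a : ℕ) : ℝ) ^ 3 * p i a 2)
    have h4 : ev (pe_v K a) (p i a) = K + (((a : ℕ) : ℝ) * p i a 0 +
      ((a : ℕ) : ℝ) ^ 2 * p i a 1 + ((a : ℕ) : ℝ) ^ 3 * p i a 2) := by
      simp [ev, pe_v]; ring
    rw [h4]
    have h5 : f i a = |((a : ℕ) : ℝ) * p i a 0 + ((a : ℕ) : ℝ) ^ 2 * p i a 1 +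
      ((a : ℕ) : ℝ) ^ 3 * p i a 2| := rfl
    rw [h5] at h2
    linarith
  have e1 : ∀ᶠ η : ℝ in 𝓝[>] 0, ∀ (i : I) (a b : Fin S), b ≠ a → 0 < ev (g b) (p i a) - η * ev (pe_v K b) (p i a) := by
    rw [eventually_all]; intro i
    rw [eventually_all]; intro a
    rw [eventually_all]; intro b
    by_cases hb : b = a
    · exact Eventually.of_forall fun η h => absurd hb h
    · have hc : Continuous fun η : ℝ => ev (g b) (p i a) - η * ev (pe_v K b) (p i a) := by fun_prop
      have h2 : 0 < (fun η : ℝ => ev (g b) (p i a) - η * ev (pe_v K b) (p i a)) 0 := by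
        simpa using h1 i a b hb
      have h3 := hc.continuousAt.eventually (lt_mem_nhds h2)
      have h4 : ∀ᶠ η : ℝ in 𝓝[>] 0, 0 < ev (g b) (p i a) - η * ev (pe_v K b) (p i a) :=
        h3.filter_mono nhdsWithin_le_nhds
      exact h4.mono fun η h _ => h
  have e2 : ∀ᶠ η : ℝ in 𝓝[>] 0, ∀ a b c d : Fin S, a < b → b < c → c < d →
      det4 (g a - η • pe_v K a) (g b - η • pe_v K b) (g c - η • pe_v K c)
        (g d - η • pe_v K d) ≠ 0 := by
    rw [eventually_all]; intro a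
    rw [eventually_all]; intro b
    rw [eventually_all]; intro c
    rw [eventually_all]; intro d
    by_cases h : a < b ∧ b < c ∧ c < d
    · obtain ⟨hab, hbc, hcd⟩ := h
      have hu : Function.Injective (![(a : ℕ), b, c, d] : Fin 4 → ℕ) := by
        have h1 : (a : ℕ) < b := hab
        have h2 : (b : ℕ) < c := hbc
        have h3 : (c : ℕ) < d := hcd
        intro i j hij
        fin_cases i <;> fin_cases j <;> simp at hij ⊢ <;> omega
      have h2 := pe_evt (Matrix.of ![g a, g b, g c, g d])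
        (Matrix.of fun i => pe_v K (![(a : ℕ), b, c, d] i)) (pe_det K hK.ne' _ hu)
      refine h2.mono fun η h3 _ _ _ => ?_
      have h4 : det4 (g a - η • pe_v K a) (g b - η • pe_v K b) (g c - η • pe_v K c)
          (g d - η • pe_v K d) = (Matrix.of ![g a, g b, g c, g d] -
            η • Matrix.of fun i => pe_v K (![(a : ℕ), b, c, d] i)).det := by
        unfold det4
        congr 1
        ext i j
        fin_cases i <;> simp
      rw [h4]; exact h3
    · exact Eventually.of_forall fun η h2 h3 h4 => absurd ⟨h2, h3, h4⟩ h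
  obtain ⟨η, ⟨h2, h3⟩, h4⟩ := ((e1.and e2).and self_mem_nhdsWithin).exists
  have hη : 0 < η := h4
  refine ⟨fun a => g a - η • pe_v K a, fun i a => ?_, fun i a b hb => ?_, fun a b c d x y z => ?_⟩
  · rw [pe_ev, h0 i a]
    have := mul_pos hη (hvpos i a)
    linarith
  · rw [pe_ev]; exact h2 i a b hb
  · exact h3 a b c d x y z

end Pool.Agent.HBX
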