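import Pool.Agent.HBX.Defs

/-! Two families, one of bounded complexity: steps (5e), (5f): one row is met (row RL). -/

namespace Pool.Agent.HBX

/-- three vectors of the plane in the three given quadrants have the origin in their hull -/
theorem rl_tri_weights (A1 A2 A3 B1 B2 B3 : ℝ) (hA1 : A1 ≤ 0) (hA2 : A2 ≤ 0) (hA3 : 0 < A3)
    (hB1 : 0 < B1) (hB2 : B2 ≤ 0) (hB3 : B3 ≤ 0) (h : A1 * B3 < A3 * B1) :
    ∃ w1 w2 w3 : ℝ, 0 ≤ w1 ∧ 0 ≤ w2 ∧ 0 ≤ w3 ∧ w1 + w2 + w3 = 1 ∧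
      w1 * A1 + w2 * A2 + w3 * A3 = 0 ∧ w1 * B1 + w2 * B2 + w3 * B3 = 0 := by
  have h1 : 0 ≤ A2 * B3 - A3 * B2 := by
    have e1 := mul_nonneg_of_nonpos_of_nonpos hA2 hB3
    have e2 := mul_nonneg hA3.le (neg_nonneg.2 hB2)
    linarith
  have h2 : 0 < A3 * B1 - A1 * B3 := by linarith
  have h3 : 0 ≤ A1 * B2 - A2 * B1 := by
    have e1 := mul_nonneg_of_nonpos_of_nonpos hA1 hB2
    have e2 := mul_nonneg hB1.le (neg_nonneg.2 hA2)
    linarith
  set s : ℝ := (A2 * B3 - A3 * B2) + (A3 * B1 - A1 * B3) + (A1 * B2 - A2 * B1) with hs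
  have hs0 : 0 < s := by rw [hs]; linarith
  refine ⟨(A2 * B3 - A3 * B2) / s, (A3 * B1 - A1 * B3) / s, (A1 * B2 - A2 * B1) / s,
    div_nonneg h1 hs0.le, div_nonneg h2.le hs0.le, div_nonneg h3 hs0.le, ?_, ?_, ?_⟩
  · field_simp
    rw [hs]
    ring
  · field_simp
    ring
  · field_simp
    ring

/-- the type of a contact point -/
theorem rl_type_exists (C : ℝ) (hC : 72 ≤ C) (c : Fin 4 → ℕ → ℝ) (hc : ∀ k l, 0 < c k l)
    (hg : ∀ a b : Fin 4, a < b → ∀ l l' : ℕ, l < l' → l' < 19 →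
      C * (c b l * c a l') ≤ c b l' * c a l)
    (x : Fin 4 → ℝ) (j : ℕ) (hj : j + 2 < 19)
    (hneg : ∑ k, c k (j + 1) * x k ≤ 0)
    (hpl : 0 < ∑ k, c k j * x k) (hpr : 0 < ∑ k, c k (j + 2) * x k) :
    ∃ a k b : Fin 4, a < k ∧ k < b ∧ x k < 0 ∧
      c k j * (-x k) ≤ 6 * (c a j * x a) ∧ c a (j + 1) * x a ≤ 3 * (c k (j + 1) * (-x k)) ∧
      c k (j + 2) * (-x k) ≤ 6 * (c b (j + 2) * x b) ∧
      c b (j + 1) * x b ≤ 3 * (c k (j + 1) * (-x k)) := by
  classical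
  -- the largest negative term
  obtain ⟨k, hk⟩ : ∃ k : Fin 4, ∀ m : Fin 4, -(c m (j + 1) * x m) ≤ -(c k (j + 1) * x k) := by
    obtain ⟨k, -, hk⟩ := Finset.exists_max_image (Finset.univ : Finset (Fin 4))
      (fun m => -(c m (j + 1) * x m)) ⟨0, Finset.mem_univ _⟩
    exact ⟨k, fun m => hk m (Finset.mem_univ _)⟩
  have hkneg : x k < 0 := by
    by_contra hcon
    push Not at hcon
    have hall : ∀ m, 0 ≤ x m := by
      intro m
      by_contra hm
      push Not at hm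
      have := hk m
      nlinarith [mul_nonneg (hc k (j + 1)).le hcon, mul_pos (hc m (j + 1)) (neg_pos.2 hm)]
    have hz : ∀ m, x m = 0 := by
      intro m
      by_contra hm
      have hmp : 0 < x m := lt_of_le_of_ne (hall m) (Ne.symm hm)
      have : 0 < ∑ k, c k (j + 1) * x k :=
        Finset.sum_pos' (fun i _ => mul_nonneg (hc i _).le (hall i))
          ⟨m, Finset.mem_univ _, mul_pos (hc m _) hmp⟩
      linarith
    simp [hz] at hpl
  set N : ℝ := c k (j + 1) * (-x k) with hN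
  have hNpos : 0 < N := mul_pos (hc k _) (neg_pos.2 hkneg)
  have hup : ∀ m, c m (j + 1) * x m ≤ 3 * N := by
    intro m
    have h0 := hk 0
    have h1 := hk 1
    have h2 := hk 2
    have h3 := hk 3
    rw [Fin.sum_univ_four] at hneg
    have hkN : -(c k (j + 1) * x k) = N := by rw [hN]; ring
    rw [hkN] at h0 h1 h2 h3
    fin_cases m <;> simp <;> linarith
  -- left side
  have hleft : ∀ m, k < m → c m j * x m ≤ (c k j * (-x k)) / 24 := by
    intro m hm
    have hgm := hg k m hm j (j + 1) (by omega) (by omega)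
    have hN' : 0 < c k j * (-x k) := mul_pos (hc k _) (neg_pos.2 hkneg)
    rcases le_or_gt (x m) 0 with h | h
    · have : c m j * x m ≤ 0 := mul_nonpos_of_nonneg_of_nonpos (hc m j).le h
      linarith
    · have h1 : C * (c m j * c k (j + 1)) * x m ≤ c m (j + 1) * c k j * x m :=
        mul_le_mul_of_nonneg_right hgm h.le
      have h2 : c m (j + 1) * x m * c k j ≤ 3 * N * c k j :=
        mul_le_mul_of_nonneg_right (hup m) (hc k j).le
      have h3 : 0 < c m j * x m := mul_pos (hc m j) h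
      have h4 : 72 * (c m j * x m) * c k (j + 1) ≤ 3 * (c k j * (-x k)) * c k (j + 1) := by
        have h5 : 72 * (c m j * x m) * c k (j + 1) ≤ C * (c m j * x m) * c k (j + 1) := by
          apply mul_le_mul_of_nonneg_right _ (hc k _).le
          exact mul_le_mul_of_nonneg_right hC h3.le
        rw [hN] at h2
        linarith
      have h6 := le_of_mul_le_mul_right h4 (hc k (j + 1))
      linarith
  have hright : ∀ m, m < k → c m (j + 2) * x m ≤ (c k (j + 2) * (-x k)) / 24 := by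
    intro m hm
    have hgm := hg m k hm (j + 1) (j + 2) (by omega) (by omega)
    have hN' : 0 < c k (j + 2) * (-x k) := mul_pos (hc k _) (neg_pos.2 hkneg)
    rcases le_or_gt (x m) 0 with h | h
    · have : c m (j + 2) * x m ≤ 0 := mul_nonpos_of_nonneg_of_nonpos (hc m _).le h
      linarith
    · have h1 : C * (c k (j + 1) * c m (j + 2)) * x m ≤ c k (j + 2) * c m (j + 1) * x m :=
        mul_le_mul_of_nonneg_right hgm h.le
      have h2 : c m (j + 1) * x m * c k (j + 2) ≤ 3 * N * c k (j + 2) :=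
        mul_le_mul_of_nonneg_right (hup m) (hc k _).le
      have h3 : 0 < c m (j + 2) * x m := mul_pos (hc m _) h
      have h4 : 72 * (c m (j + 2) * x m) * c k (j + 1) ≤
          3 * (c k (j + 2) * (-x k)) * c k (j + 1) := by
        have h5 : 72 * (c m (j + 2) * x m) * c k (j + 1) ≤
            C * (c m (j + 2) * x m) * c k (j + 1) := by
          apply mul_le_mul_of_nonneg_right _ (hc k _).le
          exact mul_le_mul_of_nonneg_right hC h3.le
        rw [hN] at h2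
        linarith
      have h6 := le_of_mul_le_mul_right h4 (hc k (j + 1))
      linarith
  -- choose a
  obtain ⟨a, hak, ha⟩ : ∃ a, a < k ∧ c k j * (-x k) ≤ 6 * (c a j * x a) := by
    by_contra hcon
    push Not at hcon
    have hN' : 0 < c k j * (-x k) := mul_pos (hc k _) (neg_pos.2 hkneg)
    rw [Fin.sum_univ_four] at hpl
    have hL := hleft
    have hM := hcon
    fin_cases k
    · have h1 := hL 1 (by decide)
      have h2 := hL 2 (by decide)
      have h3 := hL 3 (by decide)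
      simp only [Fin.zero_eta, Fin.isValue] at *
      linarith
    · have h0 := hM 0 (by decide)
      have h2 := hL 2 (by decide)
      have h3 := hL 3 (by decide)
      simp only [Fin.mk_one, Fin.isValue] at *
      linarith
    · have h0 := hM 0 (by decide)
      have h1 := hM 1 (by decide)
      have h3 := hL 3 (by decide)
      simp only [Fin.reduceFinMk, Fin.isValue] at *
      linarith
    · have h0 := hM 0 (by decide)
      have h1 := hM 1 (by decide)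
      have h2 := hM 2 (by decide)
      simp only [Fin.reduceFinMk, Fin.isValue] at *
      linarith
  obtain ⟨b, hkb, hb⟩ : ∃ b, k < b ∧ c k (j + 2) * (-x k) ≤ 6 * (c b (j + 2) * x b) := by
    by_contra hcon
    push Not at hcon
    have hN' : 0 < c k (j + 2) * (-x k) := mul_pos (hc k _) (neg_pos.2 hkneg)
    rw [Fin.sum_univ_four] at hpr
    have hL := hright
    have hM := hcon
    fin_cases k
    · have h1 := hM 1 (by decide)
      have h2 := hM 2 (by decide)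
      have h3 := hM 3 (by decide)
      simp only [Fin.zero_eta, Fin.isValue] at *
      linarith
    · have h0 := hL 0 (by decide)
      have h2 := hM 2 (by decide)
      have h3 := hM 3 (by decide)
      simp only [Fin.mk_one, Fin.isValue] at *
      linarith
    · have h0 := hL 0 (by decide)
      have h1 := hL 1 (by decide)
      have h3 := hM 3 (by decide)
      simp only [Fin.reduceFinMk, Fin.isValue] at *
      linarith
    · have h0 := hL 0 (by decide)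
      have h1 := hL 1 (by decide)
      have h2 := hL 2 (by decide)
      simp only [Fin.reduceFinMk, Fin.isValue] at *
      linarith
  exact ⟨a, k, b, hak, hkb, hkneg, ha, hup a, hb, hup b⟩

/-- three of nine have the same type -/
theorem rl_three_same (P : ℕ → Fin 4 × Fin 4 × Fin 4 → Prop)
    (h : ∀ i < 9, ∃ t : Fin 4 × Fin 4 × Fin 4, t.1 < t.2.1 ∧ t.2.1 < t.2.2 ∧ P i t) :
    ∃ i1 i2 i3 : ℕ, i1 < i2 ∧ i2 < i3 ∧ i3 < 9 ∧ ∃ t : Fin 4 × Fin 4 × Fin 4,
      t.1 < t.2.1 ∧ t.2.1 < t.2.2 ∧ P i1 t ∧ P i2 t ∧ P i3 t := by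
  classical
  choose! f hf using h
  let S : Finset (Fin 4 × Fin 4 × Fin 4) :=
    Finset.univ.filter (fun t => t.1 < t.2.1 ∧ t.2.1 < t.2.2)
  have hS : S.card = 4 := by decide
  have hmaps : ∀ i ∈ Finset.range 9, f i ∈ S := by
    intro i hi
    have := hf i (Finset.mem_range.1 hi)
    simp [S, this.1, this.2.1]
  obtain ⟨t, ht, hcard⟩ := Finset.exists_lt_card_fiber_of_mul_lt_card_of_maps_to
    (n := 2) hmaps (by rw [hS, Finset.card_range]; norm_num)
  obtain ⟨i, hi, j, hj, k, hk, hij, hik, hjk⟩ := Finset.two_lt_card.1 hcard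
  have ht' : t.1 < t.2.1 ∧ t.2.1 < t.2.2 := by simpa [S] using ht
  have key : ∀ i ∈ (Finset.range 9).filter (fun x => f x = t), i < 9 ∧ P i t := by
    intro i hi
    rw [Finset.mem_filter, Finset.mem_range] at hi
    exact ⟨hi.1, by have := (hf i hi.1).2.2; rwa [hi.2] at this⟩
  obtain ⟨hi1, hi2⟩ := key i hi
  obtain ⟨hj1, hj2⟩ := key j hj
  obtain ⟨hk1, hk2⟩ := key k hk
  rcases lt_or_gt_of_ne hij with h1 | h1 <;> rcases lt_or_gt_of_ne hik with h2 | h2 <;>
    rcases lt_or_gt_of_ne hjk with h3 | h3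
  · exact ⟨i, j, k, h1, h3, hk1, t, ht'.1, ht'.2, hi2, hj2, hk2⟩
  · exact ⟨i, k, j, h2, h3, hj1, t, ht'.1, ht'.2, hi2, hk2, hj2⟩
  · omega
  · exact ⟨k, i, j, h2, h1, hj1, t, ht'.1, ht'.2, hk2, hi2, hj2⟩
  · exact ⟨j, i, k, h1, h2, hk1, t, ht'.1, ht'.2, hj2, hi2, hk2⟩
  · omega
  · exact ⟨j, k, i, h3, h2, hi1, t, ht'.1, ht'.2, hj2, hk2, hi2⟩
  · exact ⟨k, j, i, h3, h1, hi1, t, ht'.1, ht'.2, hk2, hj2, hi2⟩

/-- steps (5e), (5f) -/
theorem rl_hb_types (C : ℝ) (hC : 72 ≤ C) (c : Fin 4 → ℕ → ℝ) (hc : ∀ k l, 0 < c k l)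
    (hg : ∀ a b : Fin 4, a < b → ∀ l l' : ℕ, l < l' → l' < 19 →
      C * (c b l * c a l') ≤ c b l' * c a l)
    (u : ℕ → Fin 4 → ℝ)
    (hneg : ∀ j < 19, ∑ k, c k j * u j k ≤ 0)
    (hpos : ∀ j < 19, ∀ l < 19, l ≠ j → 0 < ∑ k, c k l * u j k) :
    ∃ j1 j2 j3 : ℕ, j1 < j2 ∧ j2 < j3 ∧ j3 < 19 ∧ ∃ a k b : Fin 4, a < k ∧ k < b ∧
      ∃ w1 w2 w3 : ℝ, 0 ≤ w1 ∧ 0 ≤ w2 ∧ 0 ≤ w3 ∧ w1 + w2 + w3 = 1 ∧
        (w1 * u j1 a + w2 * u j2 a + w3 * u j3 a) +
          3 * (c k j2 / c a j2) * (w1 * u j1 k + w2 * u j2 k + w3 * u j3 k) = 0 ∧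
        (w1 * u j1 b + w2 * u j2 b + w3 * u j3 b) +
          3 * (c k j2 / c b j2) * (w1 * u j1 k + w2 * u j2 k + w3 * u j3 k) = 0 := by
  have hC0 : 0 < C := by linarith
  obtain ⟨i1, i2, i3, h12, h23, h39, ⟨a, k, b⟩, hak, hkb, hP1, hP2, hP3⟩ := rl_three_same
    (fun i t => u (2 * i + 1) t.2.1 < 0 ∧
      c t.2.1 (2 * i) * (-u (2 * i + 1) t.2.1) ≤ 6 * (c t.1 (2 * i) * u (2 * i + 1) t.1) ∧
      c t.1 (2 * i + 1) * u (2 * i + 1) t.1 ≤
        3 * (c t.2.1 (2 * i + 1) * (-u (2 * i + 1) t.2.1)) ∧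
      c t.2.1 (2 * i + 2) * (-u (2 * i + 1) t.2.1) ≤
        6 * (c t.2.2 (2 * i + 2) * u (2 * i + 1) t.2.2) ∧
      c t.2.2 (2 * i + 1) * u (2 * i + 1) t.2.2 ≤
        3 * (c t.2.1 (2 * i + 1) * (-u (2 * i + 1) t.2.1))) (by
    intro i hi
    obtain ⟨a, k, b, h⟩ := rl_type_exists C hC c hc hg (u (2 * i + 1)) (2 * i) (by omega)
      (hneg _ (by omega)) (hpos _ (by omega) _ (by omega) (by omega))
      (hpos _ (by omega) _ (by omega) (by omega))
    exact ⟨(a, k, b), h.1, h.2.1, h.2.2⟩)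
  simp only at hak hkb hP1 hP2 hP3
  obtain ⟨n1, l1, a1, r1, b1⟩ := hP1
  obtain ⟨n2, l2, a2, r2, b2⟩ := hP2
  obtain ⟨n3, l3, a3, r3, b3⟩ := hP3
  refine ⟨2 * i1 + 1, 2 * i2 + 1, 2 * i3 + 1, by omega, by omega, by omega, a, k, b, hak, hkb, ?_⟩
  set X : ℝ := 3 * (c k (2 * i2 + 1) / c a (2 * i2 + 1)) with hX
  set Y : ℝ := 3 * (c k (2 * i2 + 1) / c b (2 * i2 + 1)) with hY
  have hX0 : 0 < X := by rw [hX]; exact mul_pos (by norm_num) (div_pos (hc _ _) (hc _ _))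
  have hY0 : 0 < Y := by rw [hY]; exact mul_pos (by norm_num) (div_pos (hc _ _) (hc _ _))
  have hXe : X * c a (2 * i2 + 1) = 3 * c k (2 * i2 + 1) := by
    rw [hX]; field_simp [(hc a (2 * i2 + 1)).ne']
  have hYe : Y * c b (2 * i2 + 1) = 3 * c k (2 * i2 + 1) := by
    rw [hY]; field_simp [(hc b (2 * i2 + 1)).ne']
  -- bounds
  have hA2 : u (2 * i2 + 1) a + X * u (2 * i2 + 1) k ≤ 0 := by
    have : (u (2 * i2 + 1) a + X * u (2 * i2 + 1) k) * c a (2 * i2 + 1) ≤ 0 * c a (2 * i2 + 1) := by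
      have : X * u (2 * i2 + 1) k * c a (2 * i2 + 1) =
        3 * c k (2 * i2 + 1) * u (2 * i2 + 1) k := by rw [← hXe]; ring
      linarith
    exact le_of_mul_le_mul_right this (hc a _)
  have hB2 : u (2 * i2 + 1) b + Y * u (2 * i2 + 1) k ≤ 0 := by
    have : (u (2 * i2 + 1) b + Y * u (2 * i2 + 1) k) * c b (2 * i2 + 1) ≤ 0 * c b (2 * i2 + 1) := by
      have : Y * u (2 * i2 + 1) k * c b (2 * i2 + 1) =
        3 * c k (2 * i2 + 1) * u (2 * i2 + 1) k := by rw [← hYe]; ring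
      linarith
    exact le_of_mul_le_mul_right this (hc b _)
  -- A1 : r is increasing
  have hA1 : u (2 * i1 + 1) a + X * u (2 * i1 + 1) k ≤ 0 := by
    have hgr := hg a k hak (2 * i1 + 1) (2 * i2 + 1) (by omega) (by omega)
    -- 3 c_k(j1)/c_a(j1) ≤ X
    have hle : 3 * c k (2 * i1 + 1) ≤ X * c a (2 * i1 + 1) := by
      have h1 : 3 * c k (2 * i1 + 1) * c a (2 * i2 + 1) ≤
          X * c a (2 * i1 + 1) * c a (2 * i2 + 1) := by
        have h2 : X * c a (2 * i1 + 1) * c a (2 * i2 + 1) =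
          3 * (c k (2 * i2 + 1) * c a (2 * i1 + 1)) := by
          calc X * c a (2 * i1 + 1) * c a (2 * i2 + 1)
              = (X * c a (2 * i2 + 1)) * c a (2 * i1 + 1) := by ring
            _ = _ := by rw [hXe]; ring
        rw [h2]
        have h3 : 0 < c k (2 * i1 + 1) * c a (2 * i2 + 1) := mul_pos (hc _ _) (hc _ _)
        nlinarith
      exact le_of_mul_le_mul_right h1 (hc a _)
    have : (u (2 * i1 + 1) a + X * u (2 * i1 + 1) k) * c a (2 * i1 + 1) ≤ 0 * c a (2 * i1 + 1) := by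
      have h4 : 3 * c k (2 * i1 + 1) * (-u (2 * i1 + 1) k) ≤
        X * c a (2 * i1 + 1) * (-u (2 * i1 + 1) k) :=
        mul_le_mul_of_nonneg_right hle (by linarith)
      linarith
    exact le_of_mul_le_mul_right this (hc a _)
  -- B3 : q is decreasing
  have hB3 : u (2 * i3 + 1) b + Y * u (2 * i3 + 1) k ≤ 0 := by
    have hgr := hg k b hkb (2 * i2 + 1) (2 * i3 + 1) (by omega) (by omega)
    have hle : 3 * c k (2 * i3 + 1) ≤ Y * c b (2 * i3 + 1) := by
      have h1 : 3 * c k (2 * i3 + 1) * c b (2 * i2 + 1) ≤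
          Y * c b (2 * i3 + 1) * c b (2 * i2 + 1) := by
        have h2 : Y * c b (2 * i3 + 1) * c b (2 * i2 + 1) =
          3 * (c b (2 * i3 + 1) * c k (2 * i2 + 1)) := by
          calc Y * c b (2 * i3 + 1) * c b (2 * i2 + 1)
              = (Y * c b (2 * i2 + 1)) * c b (2 * i3 + 1) := by ring
            _ = _ := by rw [hYe]; ring
        rw [h2]
        have h3 : 0 < c b (2 * i2 + 1) * c k (2 * i3 + 1) := mul_pos (hc _ _) (hc _ _)
        nlinarith
      exact le_of_mul_le_mul_right h1 (hc b _)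
    have : (u (2 * i3 + 1) b + Y * u (2 * i3 + 1) k) * c b (2 * i3 + 1) ≤ 0 * c b (2 * i3 + 1) := by
      have h4 : 3 * c k (2 * i3 + 1) * (-u (2 * i3 + 1) k) ≤
        Y * c b (2 * i3 + 1) * (-u (2 * i3 + 1) k) :=
        mul_le_mul_of_nonneg_right hle (by linarith)
      linarith
    exact le_of_mul_le_mul_right this (hc b _)
  -- A3 ≥ 3 X |u3k|
  have hA3 : 3 * X * (-u (2 * i3 + 1) k) ≤ u (2 * i3 + 1) a + X * u (2 * i3 + 1) k := by
    have hgr := hg a k hak (2 * i2 + 1) (2 * i3) (by omega) (by omega)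
    -- 4 X c_a(j3-1) ≤ c_k(j3-1)/6
    have hle : 4 * X * c a (2 * i3) * 6 ≤ c k (2 * i3) := by
      have h1 : 4 * X * c a (2 * i3) * 6 * c a (2 * i2 + 1) ≤ c k (2 * i3) * c a (2 * i2 + 1) := by
        have h2 : 4 * X * c a (2 * i3) * 6 * c a (2 * i2 + 1) =
          72 * (c k (2 * i2 + 1) * c a (2 * i3)) := by
          calc 4 * X * c a (2 * i3) * 6 * c a (2 * i2 + 1)
              = 24 * (X * c a (2 * i2 + 1)) * c a (2 * i3) := by ring
            _ = _ := by rw [hXe]; ring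
        rw [h2]
        have h3 : 0 < c k (2 * i2 + 1) * c a (2 * i3) := mul_pos (hc _ _) (hc _ _)
        nlinarith
      exact le_of_mul_le_mul_right h1 (hc a _)
    have h5 : (4 * X * (-u (2 * i3 + 1) k)) * c a (2 * i3) ≤ u (2 * i3 + 1) a * c a (2 * i3) := by
      have h6 : 4 * X * c a (2 * i3) * 6 * (-u (2 * i3 + 1) k) ≤ c k (2 * i3) * (-u (2 * i3 + 1) k) :=
        mul_le_mul_of_nonneg_right hle (by linarith)
      linarith
    have h7 := le_of_mul_le_mul_right h5 (hc a _)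
    linarith
  have hB1 : 3 * Y * (-u (2 * i1 + 1) k) ≤ u (2 * i1 + 1) b + Y * u (2 * i1 + 1) k := by
    have hgr := hg k b hkb (2 * i1 + 2) (2 * i2 + 1) (by omega) (by omega)
    have hle : 4 * Y * c b (2 * i1 + 2) * 6 ≤ c k (2 * i1 + 2) := by
      have h1 : 4 * Y * c b (2 * i1 + 2) * 6 * c b (2 * i2 + 1) ≤
          c k (2 * i1 + 2) * c b (2 * i2 + 1) := by
        have h2 : 4 * Y * c b (2 * i1 + 2) * 6 * c b (2 * i2 + 1) =
          72 * (c b (2 * i1 + 2) * c k (2 * i2 + 1)) := by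
          calc 4 * Y * c b (2 * i1 + 2) * 6 * c b (2 * i2 + 1)
              = 24 * (Y * c b (2 * i2 + 1)) * c b (2 * i1 + 2) := by ring
            _ = _ := by rw [hYe]; ring
        rw [h2]
        have h3 : 0 < c b (2 * i1 + 2) * c k (2 * i2 + 1) := mul_pos (hc _ _) (hc _ _)
        nlinarith
      exact le_of_mul_le_mul_right h1 (hc b _)
    have h5 : (4 * Y * (-u (2 * i1 + 1) k)) * c b (2 * i1 + 2) ≤
        u (2 * i1 + 1) b * c b (2 * i1 + 2) := by
      have h6 : 4 * Y * c b (2 * i1 + 2) * 6 * (-u (2 * i1 + 1) k) ≤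
        c k (2 * i1 + 2) * (-u (2 * i1 + 1) k) :=
        mul_le_mul_of_nonneg_right hle (by linarith)
      linarith
    have h7 := le_of_mul_le_mul_right h5 (hc b _)
    linarith
  -- positivity of the coordinates a (row 1) and b (row 3)
  have hua1 : 0 < u (2 * i1 + 1) a := by
    have : 0 < c k (2 * i1) * (-u (2 * i1 + 1) k) := mul_pos (hc _ _) (by linarith)
    by_contra hcon
    push Not at hcon
    have := mul_nonpos_of_nonneg_of_nonpos (hc a (2 * i1)).le hcon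
    linarith
  have hub3 : 0 < u (2 * i3 + 1) b := by
    have : 0 < c k (2 * i3 + 2) * (-u (2 * i3 + 1) k) := mul_pos (hc _ _) (by linarith)
    by_contra hcon
    push Not at hcon
    have := mul_nonpos_of_nonneg_of_nonpos (hc b (2 * i3 + 2)).le hcon
    linarith
  have e1 : 0 < -u (2 * i1 + 1) k := by linarith
  have e3 : 0 < -u (2 * i3 + 1) k := by linarith
  have hXe3 : 0 < X * (-u (2 * i3 + 1) k) := mul_pos hX0 e3
  have hYe1 : 0 < Y * (-u (2 * i1 + 1) k) := mul_pos hY0 e1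
  have hXe1 : 0 < X * (-u (2 * i1 + 1) k) := mul_pos hX0 e1
  have hYe3 : 0 < Y * (-u (2 * i3 + 1) k) := mul_pos hY0 e3
  obtain ⟨w1, w2, w3, hw1, hw2, hw3, hw, hwa, hwb⟩ := rl_tri_weights
    (u (2 * i1 + 1) a + X * u (2 * i1 + 1) k) (u (2 * i2 + 1) a + X * u (2 * i2 + 1) k)
    (u (2 * i3 + 1) a + X * u (2 * i3 + 1) k) (u (2 * i1 + 1) b + Y * u (2 * i1 + 1) k)
    (u (2 * i2 + 1) b + Y * u (2 * i2 + 1) k) (u (2 * i3 + 1) b + Y * u (2 * i3 + 1) k)
    hA1 hA2 (by linarith) (by linarith) hB2 hB3 (by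
      have s1 : -(u (2 * i1 + 1) a + X * u (2 * i1 + 1) k) ≤ X * (-u (2 * i1 + 1) k) := by linarith
      have s2 : -(u (2 * i3 + 1) b + Y * u (2 * i3 + 1) k) ≤ Y * (-u (2 * i3 + 1) k) := by linarith
      have s3 : (u (2 * i1 + 1) a + X * u (2 * i1 + 1) k) * (u (2 * i3 + 1) b + Y * u (2 * i3 + 1) k)
          ≤ (X * (-u (2 * i1 + 1) k)) * (Y * (-u (2 * i3 + 1) k)) := by
        have := mul_le_mul s1 s2 (by linarith) hXe1.le
        linarith
      have s4 : (3 * (X * (-u (2 * i3 + 1) k))) * (3 * (Y * (-u (2 * i1 + 1) k))) ≤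
          (u (2 * i3 + 1) a + X * u (2 * i3 + 1) k) * (u (2 * i1 + 1) b + Y * u (2 * i1 + 1) k) := by
        apply mul_le_mul (by linarith) (by linarith) (by linarith) (by linarith)
      have s5 : 0 < (X * (-u (2 * i1 + 1) k)) * (Y * (-u (2 * i3 + 1) k)) := mul_pos hXe1 hYe3
      have s6 : (3 * (X * (-u (2 * i3 + 1) k))) * (3 * (Y * (-u (2 * i1 + 1) k))) =
        9 * ((X * (-u (2 * i1 + 1) k)) * (Y * (-u (2 * i3 + 1) k))) := by ring
      linarith)
  refine ⟨w1, w2, w3, hw1, hw2, hw3, hw, ?_, ?_⟩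
  · rw [← hwa]; ring
  · rw [← hwb]; ring


theorem rl_ev_three (g : Fin 4 → ℝ) (p1 p2 p3 : P3) (w1 w2 w3 : ℝ) (h : w1 + w2 + w3 = 1) :
    ev g (w1 • p1 + w2 • p2 + w3 • p3) = w1 * ev g p1 + w2 * ev g p2 + w3 * ev g p3 := by
  have hg : g 0 = (w1 + w2 + w3) * g 0 := by rw [h, one_mul]
  simp only [ev, PiLp.add_apply, PiLp.smul_apply, smul_eq_mul]
  calc g 0 + g 1 * (w1 * p1 0 + w2 * p2 0 + w3 * p3 0) + g 2 * (w1 * p1 1 + w2 * p2 1 + w3 * p3 1)
        + g 3 * (w1 * p1 2 + w2 * p2 2 + w3 * p3 2)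
      = (w1 + w2 + w3) * g 0 + g 1 * (w1 * p1 0 + w2 * p2 0 + w3 * p3 0) +
        g 2 * (w1 * p1 1 + w2 * p2 1 + w3 * p3 1)
        + g 3 * (w1 * p1 2 + w2 * p2 2 + w3 * p3 2) := by rw [← hg]
    _ = _ := by ring

/-! ROW RL -/
theorem row_line (P : Fin 4 → Fin 4 → ℝ) (hP : LinearIndependent ℝ P) (c : Fin 19 → Fin 4 → ℝ)
    (hc : ∀ l k, 0 < c l k)
    (hl : ∀ l l' : Fin 19, l < l' → ∀ k k' : Fin 4, k < k' →
      72 * (c l k' * c l' k) ≤ c l' k' * c l k)
    (p : Fin 19 → P3) (e1 : ∀ j, ∑ k, c j k * ev (P k) (p j) ≤ 0)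
    (e2 : ∀ j l, l ≠ j → 0 < ∑ k, c l k * ev (P k) (p j)) :
    ∃ (j : Fin 19) (a k b : Fin 4), a < k ∧ k < b ∧ ∃ q ∈ convexHull ℝ (Set.range p),
      ev (P a) q + 3 * (c j k / c j a) * ev (P k) q = 0 ∧
      ev (P b) q + 3 * (c j k / c j b) * ev (P k) q = 0 := by
  classical
  obtain ⟨j1, j2, j3, h12, h23, h3, a, k, b, hak, hkb, w1, w2, w3, hw1, hw2, hw3, hw, hA, hB⟩ :=
    rl_hb_types 72 le_rfl (fun k l => if h : l < 19 then c ⟨l, h⟩ k else 1)
      (by
        intro k l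
        split_ifs with h
        · exact hc _ _
        · exact one_pos)
      (by
        intro a b hab l l' hll hl'
        have hl0 : l < 19 := lt_trans hll hl'
        simp only [hl0, hl', dif_pos]
        exact hl ⟨l, hl0⟩ ⟨l', hl'⟩ hll a b hab)
      (fun j k => if h : j < 19 then ev (P k) (p ⟨j, h⟩) else 0)
      (by
        intro j hj
        simp only [hj, dif_pos]
        exact e1 ⟨j, hj⟩)
      (by
        intro j hj l hl' hne
        simp only [hj, hl', dif_pos]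
        exact e2 ⟨j, hj⟩ ⟨l, hl'⟩ (fun h => hne (by simpa using congrArg Fin.val h)))
  have hj2 : j2 < 19 := lt_trans h23 h3
  have hj1 : j1 < 19 := lt_trans h12 hj2
  simp only [hj1, hj2, h3, dif_pos] at hA hB
  refine ⟨⟨j2, hj2⟩, a, k, b, hak, hkb,
    w1 • p ⟨j1, hj1⟩ + w2 • p ⟨j2, hj2⟩ + w3 • p ⟨j3, h3⟩, ?_, ?_, ?_⟩
  · have m1 : p ⟨j1, hj1⟩ ∈ convexHull ℝ (Set.range p) := subset_convexHull ℝ _ ⟨_, rfl⟩
    have m2 : p ⟨j2, hj2⟩ ∈ convexHull ℝ (Set.range p) := subset_convexHull ℝ _ ⟨_, rfl⟩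
    have m3 : p ⟨j3, h3⟩ ∈ convexHull ℝ (Set.range p) := subset_convexHull ℝ _ ⟨_, rfl⟩
    have hconv := convex_convexHull ℝ (Set.range p)
    have := hconv.sum_mem (t := (Finset.univ : Finset (Fin 3))) (w := ![w1, w2, w3])
      (z := ![p ⟨j1, hj1⟩, p ⟨j2, hj2⟩, p ⟨j3, h3⟩])
      (by intro i _; fin_cases i <;> simpa)
      (by simp [Fin.sum_univ_three, hw])
      (by intro i _; fin_cases i <;> simpa)
    simpa [Fin.sum_univ_three] using this
  · rw [rl_ev_three _ _ _ _ _ _ _ hw, rl_ev_three _ _ _ _ _ _ _ hw]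
    exact hA
  · rw [rl_ev_three _ _ _ _ _ _ _ hw, rl_ev_three _ _ _ _ _ _ _ hw]
    exact hB

end Pool.Agent.HBX
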