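import Pool.Agent.HBX.EV
import Pool.Agent.HBX.PE
import Pool.Agent.HBX.LA
import Pool.Agent.HBX.RL
import Pool.Agent.HBX.KL

open scoped BigOperators

namespace Pool.Agent.HBX

theorem pp_indep (P : Fin 4 → Fin 4 → ℝ) (hP : LinearIndependent ℝ P) (a k b : Fin 4)
    (hak : a < k) (hkb : k < b) (X Y : ℝ) :
    LinearIndependent ℝ ![P a + X • P k, P b + Y • P k] := by
  rw [LinearIndependent.pair_iff]
  intro s t hst
  have h := Fintype.linearIndependent_iff.1 hP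
    (fun i => (if i = a then s else 0) + (if i = b then t else 0)
      + (if i = k then s * X + t * Y else 0)) (by
      simp only [add_smul, Finset.sum_add_distrib, ite_smul, zero_smul, Finset.sum_ite_eq',
        Finset.mem_univ, if_true]
      rw [← hst]
      module)
  have ha := h a
  have hb := h b
  have h1 : a ≠ b := (hak.trans hkb).ne
  have h2 : a ≠ k := hak.ne
  have h3 : b ≠ k := hkb.ne'
  simp only [if_true, h1, h2, if_false, add_zero] at ha
  simp only [if_true, h1.symm, h3, if_false, add_zero, zero_add] at hb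
  exact ⟨ha, hb⟩

theorem pp_ev_add (φ ψ : Fin 4 → ℝ) (X : ℝ) (q : P3) :
    ev (φ + X • ψ) q = ev φ q + X * ev ψ q := by
  simp only [ev, Pi.add_apply, Pi.smul_apply, smul_eq_mul]
  ring

theorem pp_unit : (EuclideanSpace.single (0 : Fin 3) (1 : ℝ) : P3) ≠ 0 := by
  intro h
  have := congrArg (fun v : P3 => v 0) h
  simp at this

/-- Proposition P: boundedly many lines meet all rows inscribed in `S` half-spaces. -/
theorem propP : ∃ S L : ℕ, 3 ≤ S ∧ 0 < L ∧ ∀ (g : Fin S → Fin 4 → ℝ) (I : Type) [Fintype I]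
    (p : I → Fin S → P3), (∀ i a, ev (g a) (p i a) = 0) →
    (∀ i a b, b ≠ a → 0 < ev (g b) (p i a)) →
    ∃ x d : Fin L → P3, (∀ t, d t ≠ 0) ∧
      ∀ i, ∃ t, ∃ r : ℝ, x t + r • d t ∈ convexHull ℝ (Set.range (p i)) := by
  obtain ⟨S0, hS0⟩ := lac 19 72 (by norm_num)
  have hle : S0 ≤ max S0 3 := le_max_left _ _
  refine ⟨max S0 3, Fintype.card (Fin 19 × Fin 4 × Fin 4 × Fin 4), le_max_right _ _,
    Fintype.card_pos, ?_⟩
  intro g I _ p h0 h1
  obtain ⟨g', hn, hp, hd⟩ := perturb g I p h0 h1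
  obtain ⟨e, P, c, he, hP, hg, hc, hl⟩ := hS0 (fun a => g' (Fin.castLE hle a))
    (fun a b c d hab hbc hcd => hd _ _ _ _ (by simpa using hab) (by simpa using hbc)
      (by simpa using hcd))
  have hlines : ∀ τ : Fin 19 × Fin 4 × Fin 4 × Fin 4, ∃ x d : P3, d ≠ 0 ∧
      (τ.2.1 < τ.2.2.1 → τ.2.2.1 < τ.2.2.2 → ∀ q,
        ev (P τ.2.1) q + 3 * (c τ.1 τ.2.2.1 / c τ.1 τ.2.1) * ev (P τ.2.2.1) q = 0 →
        ev (P τ.2.2.2) q + 3 * (c τ.1 τ.2.2.1 / c τ.1 τ.2.2.2) * ev (P τ.2.2.1) q = 0 →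
        ∃ r : ℝ, q = x + r • d) := by
    rintro ⟨j, a, k, b⟩
    by_cases h : a < k ∧ k < b
    · obtain ⟨x, d, hd0, hx⟩ := ker_line _ _ (pp_indep P hP a k b h.1 h.2
        (3 * (c j k / c j a)) (3 * (c j k / c j b)))
      refine ⟨x, d, hd0, fun _ _ q hq1 hq2 => hx q ?_ ?_⟩
      · rw [pp_ev_add]; exact hq1
      · rw [pp_ev_add]; exact hq2
    · refine ⟨0, EuclideanSpace.single 0 1, pp_unit, fun h1 h2 => absurd ⟨h1, h2⟩ h⟩
  choose x d hd0 hx using hlines
  let E := Fintype.equivFin (Fin 19 × Fin 4 × Fin 4 × Fin 4)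
  refine ⟨fun t => x (E.symm t), fun t => d (E.symm t), fun t => hd0 _, fun i => ?_⟩
  have hev : ∀ (l : Fin 19) (q : P3), ∑ k, c l k * ev (P k) q
      = ev (g' (Fin.castLE hle (e l))) q := by
    intro l q
    have := hg l
    rw [this, ev_lin]
  obtain ⟨j, a, k, b, hak, hkb, q, hq, hq1, hq2⟩ := row_line P hP c hc hl
    (fun j => p i (Fin.castLE hle (e j)))
    (fun j => by rw [hev]; exact (hn i _).le)
    (fun j l hlj => by
      rw [hev]
      refine hp i _ _ fun h => hlj ?_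
      exact he.injective (Fin.castLE_injective hle h))
  obtain ⟨r, hr⟩ := hx ⟨j, a, k, b⟩ hak hkb q hq1 hq2
  refine ⟨E ⟨j, a, k, b⟩, r, ?_⟩
  simp only [Equiv.symm_apply_apply]
  rw [← hr]
  refine convexHull_mono ?_ hq
  rintro _ ⟨j, rfl⟩
  exact ⟨_, rfl⟩

end Pool.Agent.HBX
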