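import Pool.Agent.HBX.TP
import Pool.Agent.HBX.DI
import Pool.Agent.HBX.PP

/-! Two families, one of bounded complexity, row F1: the theorem for triangles. -/

open scoped BigOperators Classical

namespace Pool.Agent.HBX

/-- a line through a segment -/
lemma f1_seg_line (u v : P3) :
    ∃ x d : P3, d ≠ 0 ∧ ∀ y ∈ segment ℝ u v, ∃ t : ℝ, x + t • d = y := by
  by_cases h : u = v
  · subst h
    refine ⟨u, EuclideanSpace.single 0 1, ?_, ?_⟩
    · intro h
      have := congrArg (fun z : P3 => z 0) h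
      simp at this
    · intro y hy
      rw [segment_same] at hy
      exact ⟨0, by simp [Set.mem_singleton_iff.mp hy]⟩
  · refine ⟨u, v - u, sub_ne_zero.mpr fun h' => h h'.symm, ?_⟩
    rintro y ⟨a, b, ha, hb, hab, rfl⟩
    refine ⟨b, ?_⟩
    have : a = 1 - b := by linarith
    subst this
    module

lemma f1_line : ∃ x d : P3, d ≠ 0 ∧ x = x := by
  obtain ⟨x, d, hd, _⟩ := f1_seg_line 0 0
  exact ⟨x, d, hd, rfl⟩

lemma f1_pig {α τ : Type} [Fintype α] [Fintype τ] [Nonempty τ] (P : α → Prop)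
    (Q : τ → α → Prop) (h : ∀ a, P a → ∃ t, Q t a) :
    ∃ t, Nat.card {a // P a} ≤ Fintype.card τ * Nat.card {a // Q t a} := by
  simp only [Nat.card_eq_fintype_card, Fintype.card_subtype]
  by_contra hcon
  push Not at hcon
  have h1 : (Finset.univ.filter fun a => P a).card ≤
      ∑ t : τ, (Finset.univ.filter fun a => Q t a).card := by
    calc _ ≤ ((Finset.univ : Finset τ).biUnion fun t => Finset.univ.filter fun a => Q t a).card := by
          refine Finset.card_le_card ?_
          intro a ha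
          rw [Finset.mem_filter] at ha
          obtain ⟨t, ht⟩ := h a ha.2
          rw [Finset.mem_biUnion]
          exact ⟨t, Finset.mem_univ _, Finset.mem_filter.mpr ⟨Finset.mem_univ _, ht⟩⟩
      _ ≤ _ := Finset.card_biUnion_le
  have h2 : ∑ t : τ, Fintype.card τ * (Finset.univ.filter fun a => Q t a).card <
      ∑ _t : τ, (Finset.univ.filter fun a => P a).card :=
    Finset.sum_lt_sum_of_nonempty Finset.univ_nonempty fun t _ => hcon t
  rw [← Finset.mul_sum, Finset.sum_const, Finset.card_univ, smul_eq_mul] at h2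
  have h3 := Nat.lt_of_mul_lt_mul_left h2
  omega

lemma f1_ev_comb (g : Fin 4 → ℝ) (p q : P3) (s t : ℝ) (h : s + t = 1) :
    ev g (s • p + t • q) = s * ev g p + t * ev g q := by
  have : s = 1 - t := by linarith
  subst this
  simp only [ev, PiLp.add_apply, PiLp.smul_apply, smul_eq_mul]
  ring

lemma f1_ev_smul (g : Fin 4 → ℝ) (p : P3) (s : ℝ) : ev (s • g) p = s * ev g p := by
  simp only [ev, Pi.smul_apply, smul_eq_mul]
  ring

lemma f1_zero (g : Fin 4 → ℝ) (p q : P3) (h : ev g p * ev g q ≤ 0) :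
    ∃ z ∈ segment ℝ p q, ev g z = 0 := by
  by_cases h0 : ev g q - ev g p = 0
  · have h1 : ev g q = ev g p := by linarith
    rw [h1] at h
    have h2 : ev g p = 0 := by nlinarith [mul_self_nonneg (ev g p)]
    exact ⟨p, left_mem_segment ℝ p q, h2⟩
  · have hs : 0 ≤ ev g q / (ev g q - ev g p) ∧ 0 ≤ -ev g p / (ev g q - ev g p) := by
      rcases lt_or_gt_of_ne h0 with h1 | h1
      · have h2 : ev g q ≤ 0 := by
          by_contra hc
          push Not at hc
          have h3 : 0 < ev g p := by linarith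
          have := mul_pos h3 hc
          linarith
        have h3 : 0 ≤ ev g p := by
          by_contra hc
          push Not at hc
          have h4 : ev g q < 0 := by linarith
          have := mul_pos_of_neg_of_neg hc h4
          linarith
        exact ⟨div_nonneg_of_nonpos h2 h1.le, div_nonneg_of_nonpos (by linarith) h1.le⟩
      · have h2 : 0 ≤ ev g q := by
          by_contra hc
          push Not at hc
          have h3 : ev g p < 0 := by linarith
          have := mul_pos_of_neg_of_neg h3 hc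
          linarith
        have h3 : ev g p ≤ 0 := by
          by_contra hc
          push Not at hc
          have h4 : 0 < ev g q := by linarith
          have := mul_pos hc h4
          linarith
        exact ⟨div_nonneg h2 h1.le, div_nonneg (by linarith) h1.le⟩
    have hsum : ev g q / (ev g q - ev g p) + -ev g p / (ev g q - ev g p) = 1 := by
      field_simp
      ring
    refine ⟨(ev g q / (ev g q - ev g p)) • p + (-ev g p / (ev g q - ev g p)) • q,
      ⟨_, _, hs.1, hs.2, hsum, rfl⟩, ?_⟩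
    rw [f1_ev_comb _ _ _ _ _ hsum]
    field_simp
    ring

theorem tri_main (β : ℝ) (hβ : 0 < β) : ∃ c : ℝ, 0 < c ∧ ∀ (m n : ℕ) (A : Fin m → Set P3)
    (x : Fin n → Fin 3 → P3), (∀ i, Convex ℝ (A i)) →
    β * (m * n : ℝ) ≤ (Nat.card {q : Fin m × Fin n //
      (A q.1 ∩ convexHull ℝ (Set.range (x q.2))).Nonempty} : ℝ) →
    (∃ y d : P3, d ≠ 0 ∧ c * m ≤ (Nat.card {i : Fin m // ∃ t : ℝ, y + t • d ∈ A i} : ℝ)) ∨
    (∃ y d : P3, d ≠ 0 ∧
      c * n ≤ (Nat.card {j : Fin n // ∃ t : ℝ, y + t • d ∈ convexHull ℝ (Set.range (x j))} : ℝ)) := by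
  obtain ⟨S, L, hS, hL, hP⟩ := propP
  obtain ⟨γ, δ, hγ, hδ, hdi⟩ := dichot S hS (β / 2) (by positivity)
  have hL0 : (0:ℝ) < L := by exact_mod_cast hL
  refine ⟨min (β / 18) (min γ (δ / L)), by positivity, ?_⟩
  set c := min (β / 18) (min γ (δ / L)) with hc
  have hc0 : 0 < c := by positivity
  have hc1 : c ≤ β / 18 := min_le_left _ _
  have hc2 : c ≤ γ := (min_le_right _ _).trans (min_le_left _ _)
  have hc3 : c ≤ δ / L := (min_le_right _ _).trans (min_le_right _ _)
  intro m n A x hA hdens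
  rcases Nat.eq_zero_or_pos n with hn | hn
  · right
    obtain ⟨y, d, hd, _⟩ := f1_line
    refine ⟨y, d, hd, ?_⟩
    subst hn
    simp
  rcases Nat.eq_zero_or_pos m with hm | hm
  · left
    obtain ⟨y, d, hd, _⟩ := f1_line
    refine ⟨y, d, hd, ?_⟩
    subst hm
    simp
  have hm0 : (0:ℝ) < m := by exact_mod_cast hm
  have hn0 : (0:ℝ) < n := by exact_mod_cast hn
  obtain ⟨D, hD⟩ : ∃ D : Fin m → Fin n → Prop, ∀ i j, D i j ↔
      ∃ a b, (A i ∩ segment ℝ (x j a) (x j b)).Nonempty := ⟨_, fun _ _ => Iff.rfl⟩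
  obtain ⟨E, hE⟩ : ∃ E : Fin m → Fin n → Prop, ∀ i j, E i j ↔
      ((A i ∩ convexHull ℝ (Set.range (x j))).Nonempty ∧ ¬ D i j) := ⟨_, fun _ _ => Iff.rfl⟩
  have hsplit : (Nat.card {q : Fin m × Fin n //
      (A q.1 ∩ convexHull ℝ (Set.range (x q.2))).Nonempty} : ℝ) ≤
      (Nat.card {q : Fin m × Fin n // D q.1 q.2} : ℝ) +
      (Nat.card {q : Fin m × Fin n // E q.1 q.2} : ℝ) := by
    simp only [Nat.card_eq_fintype_card, Fintype.card_subtype]
    have h1 : (Finset.univ.filter fun q : Fin m × Fin n =>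
        (A q.1 ∩ convexHull ℝ (Set.range (x q.2))).Nonempty) ⊆
        (Finset.univ.filter fun q : Fin m × Fin n => D q.1 q.2) ∪
        (Finset.univ.filter fun q : Fin m × Fin n => E q.1 q.2) := by
      intro q hq
      rw [Finset.mem_filter] at hq
      rw [Finset.mem_union, Finset.mem_filter, Finset.mem_filter]
      by_cases h : D q.1 q.2
      · exact Or.inl ⟨Finset.mem_univ _, h⟩
      · exact Or.inr ⟨Finset.mem_univ _, (hE _ _).mpr ⟨hq.2, h⟩⟩
    exact_mod_cast (Finset.card_le_card h1).trans (Finset.card_union_le _ _)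
  by_cases hDE : β / 2 * (m * n : ℝ) ≤ (Nat.card {q : Fin m × Fin n // D q.1 q.2} : ℝ)
  · -- edges
    left
    have i1 : Nonempty (Fin n × Fin 3 × Fin 3) := ⟨(⟨0, hn⟩, 0, 0)⟩
    have hkey : ∃ t : Fin n × Fin 3 × Fin 3, Nat.card {q : Fin m × Fin n // D q.1 q.2} ≤
        Fintype.card (Fin 3 × Fin 3) * (n * Nat.card {i : Fin m //
          (A i ∩ segment ℝ (x t.1 t.2.1) (x t.1 t.2.2)).Nonempty}) := by
      obtain ⟨⟨a, b⟩, hab⟩ := f1_pig (α := Fin m × Fin n) (τ := Fin 3 × Fin 3)
        (fun q => D q.1 q.2)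
        (fun ab q => (A q.1 ∩ segment ℝ (x q.2 ab.1) (x q.2 ab.2)).Nonempty)
        (fun q hq => by
          obtain ⟨a, b, h⟩ := (hD _ _).mp hq
          exact ⟨(a, b), h⟩)
      have h1 : Nat.card {q : Fin m × Fin n //
          (A q.1 ∩ segment ℝ (x q.2 a) (x q.2 b)).Nonempty} =
          ∑ j : Fin n, Nat.card {i : Fin m //
            (A i ∩ segment ℝ (x j a) (x j b)).Nonempty} := by
        simp only [Nat.card_eq_fintype_card, Fintype.card_subtype]
        rw [Finset.card_filter, Fintype.sum_prod_type_right]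
        refine Finset.sum_congr rfl fun j _ => ?_
        rw [Finset.card_filter]
      have h2 : ∃ j : Fin n, Nat.card {q : Fin m × Fin n //
          (A q.1 ∩ segment ℝ (x q.2 a) (x q.2 b)).Nonempty} ≤ n *
          Nat.card {i : Fin m // (A i ∩ segment ℝ (x j a) (x j b)).Nonempty} := by
        by_contra hcon
        push Not at hcon
        have i2 : Nonempty (Fin n) := ⟨⟨0, hn⟩⟩
        have h3 : ∑ j : Fin n, n * Nat.card {i : Fin m //
            (A i ∩ segment ℝ (x j a) (x j b)).Nonempty} <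
            ∑ _j : Fin n, Nat.card {q : Fin m × Fin n //
          (A q.1 ∩ segment ℝ (x q.2 a) (x q.2 b)).Nonempty} :=
          Finset.sum_lt_sum_of_nonempty Finset.univ_nonempty fun j _ => hcon j
        rw [← Finset.mul_sum, ← h1, Finset.sum_const, Finset.card_univ, Fintype.card_fin,
          smul_eq_mul] at h3
        exact lt_irrefl _ h3
      obtain ⟨j, hj⟩ := h2
      exact ⟨(j, a, b), hab.trans (Nat.mul_le_mul_left _ hj)⟩
    obtain ⟨⟨j, a, b⟩, hj⟩ := hkey
    obtain ⟨y, d, hd, hline⟩ := f1_seg_line (x j a) (x j b)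
    refine ⟨y, d, hd, ?_⟩
    have h1 : (Nat.card {i : Fin m // (A i ∩ segment ℝ (x j a) (x j b)).Nonempty} : ℝ) ≤
        (Nat.card {i : Fin m // ∃ t : ℝ, y + t • d ∈ A i} : ℝ) := by
      simp only [Nat.card_eq_fintype_card, Fintype.card_subtype]
      refine Nat.cast_le.mpr (Finset.card_le_card fun i hi => ?_)
      rw [Finset.mem_filter] at hi ⊢
      obtain ⟨_, z, hz1, hz2⟩ := hi
      obtain ⟨t, ht⟩ := hline z hz2
      exact ⟨Finset.mem_univ _, t, by rw [ht]; exact hz1⟩
    have h2 : (Nat.card {q : Fin m × Fin n // D q.1 q.2} : ℝ) ≤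
        9 * (n * (Nat.card {i : Fin m // (A i ∩ segment ℝ (x j a) (x j b)).Nonempty} : ℝ)) := by
      have : Fintype.card (Fin 3 × Fin 3) = 9 := by simp
      rw [this] at hj
      exact_mod_cast hj
    have h3 : β / 2 * (m * n : ℝ) ≤
        9 * (n * (Nat.card {i : Fin m // (A i ∩ segment ℝ (x j a) (x j b)).Nonempty} : ℝ)) :=
      hDE.trans h2
    have h4 : β / 18 * m ≤
        (Nat.card {i : Fin m // (A i ∩ segment ℝ (x j a) (x j b)).Nonempty} : ℝ) := by
      refine le_of_mul_le_mul_left ?_ (by positivity : (0:ℝ) < 9 * n)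
      calc 9 * n * (β / 18 * m) = β / 2 * (m * n) := by ring
        _ ≤ _ := h3
        _ = _ := by ring
    calc c * m ≤ β / 18 * m := mul_le_mul_of_nonneg_right hc1 hm0.le
      _ ≤ _ := h4
      _ ≤ _ := h1
  · -- crossed triangles
    have hEcard : β / 2 * (m * n : ℝ) ≤ (Nat.card {q : Fin m × Fin n // E q.1 q.2} : ℝ) := by
      push Not at hDE
      linarith
    choose g hg using fun j => tri_plane (x j)
    have hpt : ∀ i j, ∃ p : P3, E i j → p ∈ A i ∩ convexHull ℝ (Set.range (x j)) := by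
      intro i j
      by_cases h : E i j
      · obtain ⟨p, hp⟩ := ((hE i j).mp h).1
        exact ⟨p, fun _ => hp⟩
      · exact ⟨0, fun h' => absurd h' h⟩
    choose p hp using hpt
    have hmeet : ∀ i l, E i l → ∀ z ∈ A i, ev (g l) z = 0 →
        z ∈ convexHull ℝ (Set.range (x l)) := by
      intro i l hil z hz hz0
      have h1 := (hE i l).mp hil
      refine (hg l).2 (A i) (hA i) h1.1 ?_ z hz hz0
      intro a b
      by_contra hne
      exact h1.2 ((hD i l).mpr ⟨a, b, Set.nonempty_iff_ne_empty.mpr hne⟩)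
    rcases hdi m n hn E (fun i l j => ev (g l) (p i j)) hEcard with
      ⟨i, j, j', hij, hij', hcard⟩ | ⟨J, ε, hε, hcard⟩
    · right
      obtain ⟨y, d, hd, hline⟩ := f1_seg_line (p i j) (p i j')
      refine ⟨y, d, hd, ?_⟩
      have h1 : (Nat.card {l : Fin n // E i l ∧ ev (g l) (p i j) * ev (g l) (p i j') ≤ 0} : ℝ) ≤
          (Nat.card {j : Fin n // ∃ t : ℝ, y + t • d ∈ convexHull ℝ (Set.range (x j))} : ℝ) := by
        simp only [Nat.card_eq_fintype_card, Fintype.card_subtype]
        refine Nat.cast_le.mpr (Finset.card_le_card fun l hl => ?_)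
        rw [Finset.mem_filter] at hl ⊢
        obtain ⟨_, hil, hv⟩ := hl
        obtain ⟨z, hz, hz0⟩ := f1_zero (g l) _ _ hv
        obtain ⟨t, ht⟩ := hline z hz
        refine ⟨Finset.mem_univ _, t, ?_⟩
        rw [ht]
        exact hmeet i l hil z ((hA i).segment_subset (hp i j hij).1 (hp i j' hij').1 hz) hz0
      calc c * n ≤ γ * n := mul_le_mul_of_nonneg_right hc2 hn0.le
        _ ≤ _ := hcard
        _ ≤ _ := h1
    · left
      let I := {i : Fin m // (∀ a, E i (J a)) ∧
        ∀ a b, b ≠ a → 0 < ε b * ev (g (J b)) (p i (J a))}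
      obtain ⟨y, d, hd, hlines⟩ := hP (fun a => ε a • g (J a)) I
        (fun i a => p i.1 (J a)) (by
          intro i a
          rw [f1_ev_smul, (hg (J a)).1 _ (hp i.1 (J a) (i.2.1 a)).2, mul_zero]) (by
          intro i a b hba
          rw [f1_ev_smul]
          exact i.2.2 a b hba)
      have i3 : Nonempty (Fin L) := ⟨⟨0, hL⟩⟩
      obtain ⟨t, ht⟩ := f1_pig (α := Fin m) (τ := Fin L)
        (fun i => (∀ a, E i (J a)) ∧ ∀ a b, b ≠ a → 0 < ε b * ev (g (J b)) (p i (J a)))
        (fun t i => ∃ r : ℝ, y t + r • d t ∈ A i) (by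
          intro i hi
          obtain ⟨t, r, hr⟩ := hlines ⟨i, hi⟩
          refine ⟨t, r, convexHull_min ?_ (hA i) hr⟩
          rintro _ ⟨a, rfl⟩
          exact (hp i (J a) (hi.1 a)).1)
      refine ⟨y t, d t, hd t, ?_⟩
      rw [Fintype.card_fin] at ht
      have h1 : δ * m ≤ L * (Nat.card {i : Fin m // ∃ r : ℝ, y t + r • d t ∈ A i} : ℝ) :=
        hcard.trans (by exact_mod_cast ht)
      calc c * m ≤ δ / L * m := mul_le_mul_of_nonneg_right hc3 hm0.le
        _ = (δ * m) / L := by ring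
        _ ≤ _ := by rw [div_le_iff₀ hL0, mul_comm]; linarith

end Pool.Agent.HBX
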