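import Pool.Agent.HBX.TR
import Pool.Agent.HBX.F1

open scoped BigOperators

namespace Pool.Agent.HBX

theorem f2_card {X : Type} [Fintype X] [DecidableEq X] (P : X → Prop) [DecidablePred P] :
    Nat.card {x : X // P x} = (Finset.univ.filter P).card := by
  rw [Nat.card_eq_fintype_card, Fintype.card_subtype]

theorem f2_mono {X : Type} [Fintype X] (P Q : X → Prop) (h : ∀ x, P x → Q x) :
    Nat.card {x : X // P x} ≤ Nat.card {x : X // Q x} := by
  classical
  rw [f2_card, f2_card]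
  exact Finset.card_le_card fun x hx => by
    rw [Finset.mem_filter] at hx ⊢
    exact ⟨hx.1, h x hx.2⟩

/-- double counting -/
theorem f2_rows {m n : ℕ} (E : Fin m → Fin n → Prop) :
    Nat.card {q : Fin m × Fin n // E q.1 q.2} = ∑ i, Nat.card {j : Fin n // E i j} := by
  classical
  rw [f2_card (fun q : Fin m × Fin n => E q.1 q.2)]
  have h1 : ∀ i, Nat.card {j : Fin n // E i j} = (Finset.univ.filter fun j => E i j).card :=
    fun i => f2_card _
  simp only [h1, Finset.card_filter]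
  rw [← Finset.univ_product_univ, Finset.sum_product]

/-- some row has many elements -/
theorem f2_row {m n : ℕ} (E : Fin m → Fin n → Prop) {β : ℝ} (hm : 0 < m)
    (h : β * (m * n : ℝ) ≤ (Nat.card {q : Fin m × Fin n // E q.1 q.2} : ℝ)) :
    ∃ i, β * n ≤ (Nat.card {j : Fin n // E i j} : ℝ) := by
  by_contra hcon
  push Not at hcon
  rw [f2_rows] at h
  have : Nonempty (Fin m) := ⟨⟨0, hm⟩⟩
  have h1 : ∑ i : Fin m, (Nat.card {j : Fin n // E i j} : ℝ) < ∑ _i : Fin m, β * n :=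
    Finset.sum_lt_sum_of_nonempty Finset.univ_nonempty fun i _ => hcon i
  rw [Finset.sum_const, Finset.card_univ, Fintype.card_fin, nsmul_eq_mul] at h1
  push_cast at h
  nlinarith

/-- a nonzero vector -/
theorem f2_vec : ∃ d : P3, d ≠ 0 :=
  ⟨EuclideanSpace.single 0 1, fun h => by
    have := congrFun (congrArg (fun v : P3 => (v : Fin 3 → ℝ)) h) 0
    simp at this⟩

theorem main (k : ℕ) (α : ℝ) (hα : 0 < α) : ∃ c : ℝ, 0 < c ∧ ∀ (m n : ℕ)
    (A : Fin m → Set (EuclideanSpace ℝ (Fin 3))) (b : Fin n → Fin k → EuclideanSpace ℝ (Fin 3)),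
    (∀ i, Convex ℝ (A i)) →
    α * (m * n : ℝ) ≤ (Nat.card {q : Fin m × Fin n //
      (A q.1 ∩ convexHull ℝ (Set.range (b q.2))).Nonempty} : ℝ) →
    (∃ x d : EuclideanSpace ℝ (Fin 3), d ≠ 0 ∧
      c * m ≤ (Nat.card {i : Fin m // ∃ t : ℝ, x + t • d ∈ A i} : ℝ)) ∨
    (∃ x d : EuclideanSpace ℝ (Fin 3), d ≠ 0 ∧
      c * n ≤ (Nat.card {j : Fin n // ∃ t : ℝ,
        x + t • d ∈ convexHull ℝ (Set.range (b j))} : ℝ)) := by
  classical
  set K : ℝ := (Fintype.card (Fin 3 → Fin k) : ℝ) with hK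
  have hK0 : 0 ≤ K := by positivity
  set β : ℝ := α / (2 * (K + 1)) with hβ
  have hβ0 : 0 < β := by positivity
  obtain ⟨c', hc', H⟩ := tri_main β hβ0
  obtain ⟨d₀, hd₀⟩ := f2_vec
  refine ⟨min (α / 2) c', lt_min (by positivity) hc', fun m n A b hA hcount => ?_⟩
  rcases Nat.eq_zero_or_pos m with rfl | hm
  · exact Or.inl ⟨0, d₀, hd₀, by simp⟩
  rcases Nat.eq_zero_or_pos n with rfl | hn
  · exact Or.inr ⟨0, d₀, hd₀, by simp⟩
  have hmn : (0 : ℝ) < m * n := by positivity
  set N1 := Nat.card {q : Fin m × Fin n // (A q.1).Nonempty ∧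
    A q.1 ⊆ convexHull ℝ (Set.range (b q.2))} with hN1
  set N2 : (Fin 3 → Fin k) → ℕ := fun τ => Nat.card {q : Fin m × Fin n //
    (A q.1 ∩ convexHull ℝ (Set.range fun a => b q.2 (τ a))).Nonempty} with hN2
  have hsum : Nat.card {q : Fin m × Fin n //
      (A q.1 ∩ convexHull ℝ (Set.range (b q.2))).Nonempty} ≤ N1 + ∑ τ, N2 τ := by
    rw [hN1, f2_card (fun q : Fin m × Fin n =>
        (A q.1 ∩ convexHull ℝ (Set.range (b q.2))).Nonempty),
      f2_card (fun q : Fin m × Fin n => (A q.1).Nonempty ∧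
        A q.1 ⊆ convexHull ℝ (Set.range (b q.2)))]
    have h2 : ∀ τ, N2 τ = (Finset.univ.filter fun q : Fin m × Fin n =>
        (A q.1 ∩ convexHull ℝ (Set.range fun a => b q.2 (τ a))).Nonempty).card :=
      fun τ => f2_card _
    simp only [h2]
    refine (Finset.card_le_card (t := (Finset.univ.filter fun q : Fin m × Fin n =>
      (A q.1).Nonempty ∧ A q.1 ⊆ convexHull ℝ (Set.range (b q.2))) ∪
      Finset.univ.biUnion fun τ : Fin 3 → Fin k => Finset.univ.filter fun q : Fin m × Fin n =>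
        (A q.1 ∩ convexHull ℝ (Set.range fun a => b q.2 (τ a))).Nonempty) ?_).trans
      ((Finset.card_union_le _ _).trans (Nat.add_le_add_left Finset.card_biUnion_le _))
    intro q hq
    rw [Finset.mem_filter] at hq
    rw [Finset.mem_union, Finset.mem_filter, Finset.mem_biUnion]
    rcases sub_or_tri (b q.2) (A q.1) (hA q.1) hq.2 with h | ⟨τ, hτ⟩
    · exact Or.inl ⟨Finset.mem_univ _, hq.2.mono Set.inter_subset_left, h⟩
    · exact Or.inr ⟨τ, Finset.mem_univ _, by rw [Finset.mem_filter]; exact ⟨Finset.mem_univ _, hτ⟩⟩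
  have hsum' : α * (m * n : ℝ) ≤ (N1 : ℝ) + ∑ τ, (N2 τ : ℝ) := by
    refine hcount.trans ?_
    exact_mod_cast hsum
  by_cases h1 : α / 2 * (m * n : ℝ) ≤ N1
  · obtain ⟨i, hi⟩ := f2_row (fun i j => (A i).Nonempty ∧
      A i ⊆ convexHull ℝ (Set.range (b j))) hm h1
    have hpos : 0 < Nat.card {j : Fin n // (A i).Nonempty ∧
        A i ⊆ convexHull ℝ (Set.range (b j))} := by
      have h2 : (0 : ℝ) < α / 2 * n := by positivity
      have h3 := h2.trans_le hi
      exact_mod_cast h3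
    have : Nonempty {j : Fin n // (A i).Nonempty ∧ A i ⊆ convexHull ℝ (Set.range (b j))} := by
      rw [Nat.card_pos_iff] at hpos
      exact hpos.1
    obtain ⟨⟨j₀, ⟨x, hx⟩, -⟩⟩ := this
    refine Or.inr ⟨x, d₀, hd₀, ?_⟩
    have h4 := f2_mono (fun j : Fin n => (A i).Nonempty ∧
        A i ⊆ convexHull ℝ (Set.range (b j)))
        (fun j : Fin n => ∃ t : ℝ, x + t • d₀ ∈ convexHull ℝ (Set.range (b j)))
        (fun j hj => ⟨0, by
          rw [zero_smul, add_zero]
          exact hj.2 hx⟩)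
    have h5 : min (α / 2) c' * n ≤ α / 2 * n :=
      mul_le_mul_of_nonneg_right (min_le_left _ _) (by positivity)
    exact (h5.trans hi).trans (by exact_mod_cast h4)
  · push Not at h1
    have h2 : α / 2 * (m * n : ℝ) ≤ ∑ τ, (N2 τ : ℝ) := by linarith
    have h3 : ∃ τ, β * (m * n : ℝ) ≤ (N2 τ : ℝ) := by
      by_contra hcon
      push Not at hcon
      have h4 : ∑ τ, (N2 τ : ℝ) ≤ ∑ _τ : Fin 3 → Fin k, β * (m * n : ℝ) :=
        Finset.sum_le_sum fun τ _ => (hcon τ).le
      rw [Finset.sum_const, Finset.card_univ, nsmul_eq_mul, ← hK] at h4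
      have h5 : K * (β * (m * n : ℝ)) < α / 2 * (m * n : ℝ) := by
        have h6 : K * β < α / 2 := by
          rw [hβ, mul_div_assoc', div_lt_div_iff₀ (by positivity) (by positivity)]
          nlinarith
        nlinarith
      linarith
    obtain ⟨τ, hτ⟩ := h3
    rcases H m n A (fun j a => b j (τ a)) hA hτ with ⟨y, d, hd, h⟩ | ⟨y, d, hd, h⟩
    · refine Or.inl ⟨y, d, hd, (mul_le_mul_of_nonneg_right (min_le_right _ _)
        (by positivity)).trans h⟩
    · refine Or.inr ⟨y, d, hd, (mul_le_mul_of_nonneg_right (min_le_right _ _)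
        (by positivity)).trans (h.trans ?_)⟩
      have h4 := f2_mono (fun j : Fin n => ∃ t : ℝ, y + t • d ∈
        convexHull ℝ (Set.range fun a => b j (τ a)))
        (fun j : Fin n => ∃ t : ℝ, y + t • d ∈ convexHull ℝ (Set.range (b j)))
        (fun j ⟨t, ht⟩ => ⟨t, convexHull_mono (Set.range_comp_subset_range τ (b j)) ht⟩)
      exact_mod_cast h4

end Pool.Agent.HBX
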