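import Pool.Agent.HBX.Defs

open scoped BigOperators

namespace Pool.Agent.HBX

theorem det4_eq (x y z w : Fin 4 → ℝ) : det4 x y z w =
    (x 0 * y 1 - x 1 * y 0) * (z 2 * w 3 - z 3 * w 2)
    - (x 0 * y 2 - x 2 * y 0) * (z 1 * w 3 - z 3 * w 1)
    + (x 0 * y 3 - x 3 * y 0) * (z 1 * w 2 - z 2 * w 1)
    + (x 1 * y 2 - x 2 * y 1) * (z 0 * w 3 - z 3 * w 0)
    - (x 1 * y 3 - x 3 * y 1) * (z 0 * w 2 - z 2 * w 0)
    + (x 2 * y 3 - x 3 * y 2) * (z 0 * w 1 - z 1 * w 0) := by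
  simp [det4, Matrix.det_succ_row_zero, Fin.sum_univ_succ, Fin.succAbove, Matrix.submatrix]
  ring

theorem det4_swap12 (x y z w : Fin 4 → ℝ) : det4 y x z w = - det4 x y z w := by
  rw [det4_eq, det4_eq]; ring

theorem det4_swap23 (x y z w : Fin 4 → ℝ) : det4 x z y w = - det4 x y z w := by
  rw [det4_eq, det4_eq]; ring

theorem det4_swap34 (x y z w : Fin 4 → ℝ) : det4 x y w z = - det4 x y z w := by
  rw [det4_eq, det4_eq]; ring

theorem plucker (u v x y z w : Fin 4 → ℝ) :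
    det4 u v x y * det4 u v z w - det4 u v x z * det4 u v y w
      + det4 u v x w * det4 u v y z = 0 := by
  simp only [det4_eq]
  ring

theorem pl_cramer (a1 a2 b2 b1 g : Fin 4 → ℝ) :
    det4 a1 a2 b2 b1 • g = det4 g a2 b2 b1 • a1 + det4 a1 g b2 b1 • a2
      + det4 a1 a2 g b1 • b2 + det4 a1 a2 b2 g • b1 := by
  ext i
  simp only [Pi.add_apply, Pi.smul_apply, smul_eq_mul, det4_eq]
  fin_cases i <;> simp <;> ring

theorem pl_left (a1 a2 b3 b2 b1 g : Fin 4 → ℝ) :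
    det4 g b3 b2 b1 * det4 a1 a2 b2 b1 =
      det4 g a2 b2 b1 * det4 a1 b3 b2 b1 + det4 a1 g b2 b1 * det4 a2 b3 b2 b1 := by
  simp only [det4_eq]
  ring

theorem pl_right (a1 a2 a3 b2 b1 g : Fin 4 → ℝ) :
    det4 a1 a2 a3 g * det4 a1 a2 b2 b1 =
      det4 a1 a2 b2 g * det4 a1 a2 a3 b1 + det4 a1 a2 g b1 * det4 a1 a2 a3 b2 := by
  simp only [det4_eq]
  ring

/-- four determinants as coordinates -/
theorem coords (a1 a2 a3 b3 b2 b1 : Fin 4 → ℝ) (h1 : det4 a1 b3 b2 b1 ≠ 0)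
    (h2 : det4 a1 a2 b2 b1 ≠ 0) (h3 : det4 a1 a2 a3 b1 ≠ 0) :
    ∃ P : Fin 4 → Fin 4 → ℝ, LinearIndependent ℝ P ∧ ∀ g : Fin 4 → ℝ,
      g = det4 g b3 b2 b1 • P 0 + det4 a1 g b2 b1 • P 1 + det4 a1 a2 g b1 • P 2
        + det4 a1 a2 a3 g • P 3 := by
  have key : ∀ g : Fin 4 → ℝ, g = det4 g b3 b2 b1 • ((det4 a1 b3 b2 b1)⁻¹ • a1)
      + det4 a1 g b2 b1 • ((det4 a1 a2 b2 b1)⁻¹ • a2
        - (det4 a2 b3 b2 b1 * (det4 a1 a2 b2 b1)⁻¹ * (det4 a1 b3 b2 b1)⁻¹) • a1)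
      + det4 a1 a2 g b1 • ((det4 a1 a2 b2 b1)⁻¹ • b2
        - (det4 a1 a2 a3 b2 * (det4 a1 a2 b2 b1)⁻¹ * (det4 a1 a2 a3 b1)⁻¹) • b1)
      + det4 a1 a2 a3 g • ((det4 a1 a2 a3 b1)⁻¹ • b1) := by
    intro g
    have e0 := pl_cramer a1 a2 b2 b1 g
    have e1 := pl_left a1 a2 b3 b2 b1 g
    have e2 := pl_right a1 a2 a3 b2 b1 g
    generalize det4 g b3 b2 b1 = c0 at *
    generalize det4 a1 g b2 b1 = c1 at *
    generalize det4 a1 a2 g b1 = c2 at *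
    generalize det4 a1 a2 a3 g = c3 at *
    generalize det4 a1 b3 b2 b1 = A at *
    generalize det4 a1 a2 b2 b1 = D at *
    generalize det4 a1 a2 a3 b1 = F at *
    generalize det4 a2 b3 b2 b1 = A2 at *
    generalize det4 a1 a2 a3 b2 = E at *
    generalize det4 g a2 b2 b1 = x at *
    generalize det4 a1 a2 b2 g = y at *
    have hx : x = (c0 * D - c1 * A2) / A := by
      field_simp
      linarith
    have hy : y = (c3 * D - c2 * E) / F := by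
      field_simp
      linarith
    ext i
    have e3 := congrFun e0 i
    simp only [Pi.add_apply, Pi.smul_apply, Pi.sub_apply, smul_eq_mul] at e3 ⊢
    rw [hx, hy] at e3
    have hg : g i = ((c0 * D - c1 * A2) / A * a1 i + c1 * a2 i + c2 * b2 i
        + (c3 * D - c2 * E) / F * b1 i) / D := by
      field_simp
      field_simp at e3
      linarith
    rw [hg]
    field_simp
    ring
  let P : Fin 4 → Fin 4 → ℝ := ![(det4 a1 b3 b2 b1)⁻¹ • a1,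
    (det4 a1 a2 b2 b1)⁻¹ • a2
        - (det4 a2 b3 b2 b1 * (det4 a1 a2 b2 b1)⁻¹ * (det4 a1 b3 b2 b1)⁻¹) • a1,
    (det4 a1 a2 b2 b1)⁻¹ • b2
        - (det4 a1 a2 a3 b2 * (det4 a1 a2 b2 b1)⁻¹ * (det4 a1 a2 a3 b1)⁻¹) • b1,
    (det4 a1 a2 a3 b1)⁻¹ • b1]
  refine ⟨P, ?_, key⟩
  refine linearIndependent_of_top_le_span_of_card_eq_finrank ?_ (by simp)
  intro g _
  rw [key g]
  refine Submodule.add_mem _ (Submodule.add_mem _ (Submodule.add_mem _ ?_ ?_) ?_) ?_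
  · exact Submodule.smul_mem _ _ (Submodule.subset_span ⟨0, rfl⟩)
  · exact Submodule.smul_mem _ _ (Submodule.subset_span ⟨1, rfl⟩)
  · exact Submodule.smul_mem _ _ (Submodule.subset_span ⟨2, rfl⟩)
  · exact Submodule.smul_mem _ _ (Submodule.subset_span ⟨3, rfl⟩)

end Pool.Agent.HBX
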