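import Pool.Agent.HBX.Defs

open scoped BigOperators

namespace Pool.Agent.HBX

/-- a point of the segment from an inner point to a point outside, on the boundary -/
theorem tp_cross (x : Fin 3 → P3) (A : Set P3) (hA : Convex ℝ A) (w v : Fin 3 → ℝ)
    (hw : ∀ i, 0 < w i) (hw1 : ∑ i, w i = 1) (hv1 : ∑ i, v i = 1) (hv : ∃ i, v i < 0)
    (hq : ∑ i, w i • x i ∈ A) (hp : ∑ i, v i • x i ∈ A) :
    ∃ a b, (A ∩ segment ℝ (x a) (x b)).Nonempty := by
  classical
  obtain ⟨i1, hi1⟩ := hv
  have hne : (Finset.univ.filter fun i => v i < 0).Nonempty := ⟨i1, by simp [hi1]⟩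
  obtain ⟨i0, hi0, hmin⟩ := Finset.exists_min_image _ (fun i => w i / (w i - v i)) hne
  rw [Finset.mem_filter] at hi0
  have hv0 : v i0 < 0 := hi0.2
  set t : ℝ := w i0 / (w i0 - v i0) with ht
  have hd0 : 0 < w i0 - v i0 := by linarith [hw i0]
  have ht0 : 0 < t := div_pos (hw i0) hd0
  have ht1 : t < 1 := by
    rw [ht, div_lt_one hd0]
    linarith
  set u : Fin 3 → ℝ := fun i => (1 - t) * w i + t * v i with hu
  have hu0 : ∀ i, 0 ≤ u i := by
    intro i
    simp only [hu]
    by_cases c : v i < 0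
    · have h1 := hmin i (by simp [c])
      have hd : 0 < w i - v i := by linarith [hw i]
      rw [le_div_iff₀ hd] at h1
      nlinarith
    · push Not at c
      have h1 := hw i
      have h2 : 0 ≤ t * v i := mul_nonneg ht0.le c
      have h3 : 0 ≤ (1 - t) * w i := mul_nonneg (by linarith) h1.le
      linarith
  have hui : u i0 = 0 := by
    simp only [hu]
    have : t * (w i0 - v i0) = w i0 := by
      rw [ht]
      field_simp
    linarith
  have hu1 : ∑ i, u i = 1 := by
    simp only [hu]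
    rw [Finset.sum_add_distrib, ← Finset.mul_sum, ← Finset.mul_sum, hw1, hv1]
    ring
  have hz : ∑ i, u i • x i ∈ A := by
    have h1 := hA hq hp (by linarith : 0 ≤ 1 - t) ht0.le (by ring)
    have h2 : ∑ i, u i • x i = (1 - t) • ∑ i, w i • x i + t • ∑ i, v i • x i := by
      rw [Finset.smul_sum, Finset.smul_sum, ← Finset.sum_add_distrib]
      refine Finset.sum_congr rfl fun i _ => ?_
      simp only [hu, smul_smul, add_smul]
    rw [h2]
    exact h1
  rw [Fin.sum_univ_three] at hz hu1
  have hc : i0 = 0 ∨ i0 = 1 ∨ i0 = 2 := by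
    fin_cases i0 <;> simp
  rcases hc with rfl | rfl | rfl
  · refine ⟨1, 2, _, hz, u 1, u 2, hu0 1, hu0 2, by linarith, ?_⟩
    rw [hui, zero_smul, zero_add]
  · refine ⟨0, 2, _, hz, u 0, u 2, hu0 0, hu0 2, by linarith, ?_⟩
    rw [hui, zero_smul, add_zero]
  · refine ⟨0, 1, _, hz, u 0, u 1, hu0 0, hu0 1, by linarith, ?_⟩
    rw [hui, zero_smul, add_zero]

theorem tp_ker (X : Fin 3 → (Fin 4 → ℝ)) (hX : LinearIndependent ℝ X) :
    ∃ g : Fin 4 → ℝ, (∀ i, ∑ k, g k * X i k = 0) ∧
      ∀ y : Fin 4 → ℝ, ∑ k, g k * y k = 0 → ∃ v : Fin 3 → ℝ, ∑ i, v i • X i = y := by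
  have hfr : Module.finrank ℝ (Submodule.span ℝ (Set.range X)) = 3 := by
    rw [finrank_span_eq_card hX]
    simp
  have hlt : Submodule.span ℝ (Set.range X) < ⊤ := by
    refine lt_top_iff_ne_top.2 fun h => ?_
    rw [h, finrank_top] at hfr
    simp at hfr
  obtain ⟨f, hf0, hf⟩ := Submodule.exists_le_ker_of_lt_top _ hlt
  have hker : Module.finrank ℝ (LinearMap.ker f) = 3 := by
    have h1 := LinearMap.finrank_range_add_finrank_ker f
    have h2 : LinearMap.range f = ⊤ := LinearMap.range_eq_top.2 (LinearMap.surjective hf0)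
    rw [h2, finrank_top] at h1
    simp at h1
    omega
  have heq : Submodule.span ℝ (Set.range X) = LinearMap.ker f :=
    Submodule.eq_of_le_of_finrank_eq hf (by rw [hfr, hker])
  have hfy : ∀ y : Fin 4 → ℝ, f y = ∑ k, f (Pi.single k 1) * y k := by
    intro y
    conv_lhs => rw [← Finset.univ_sum_single y]
    rw [map_sum]
    refine Finset.sum_congr rfl fun k _ => ?_
    have : (Pi.single k (y k) : Fin 4 → ℝ) = y k • Pi.single k 1 := by
      rw [← Pi.single_smul, smul_eq_mul, mul_one]
    rw [this, map_smul, smul_eq_mul, mul_comm]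
  refine ⟨fun k => f (Pi.single k 1), fun i => ?_, fun y hy => ?_⟩
  · rw [← hfy]
    exact hf (Submodule.subset_span ⟨i, rfl⟩)
  · rw [← hfy] at hy
    have : y ∈ Submodule.span ℝ (Set.range X) := by
      rw [heq]
      exact hy
    exact (Submodule.mem_span_range_iff_exists_fun ℝ).1 this

theorem tri_plane (x : Fin 3 → P3) : ∃ g : Fin 4 → ℝ,
    (∀ p ∈ convexHull ℝ (Set.range x), ev g p = 0) ∧
    ∀ A : Set P3, Convex ℝ A → (A ∩ convexHull ℝ (Set.range x)).Nonempty →
      (∀ a b, A ∩ segment ℝ (x a) (x b) = ∅) →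
      ∀ p ∈ A, ev g p = 0 → p ∈ convexHull ℝ (Set.range x) := by
  classical
  set X : Fin 3 → (Fin 4 → ℝ) := fun i => ![1, x i 0, x i 1, x i 2] with hXdef
  have hull : ∀ p ∈ convexHull ℝ (Set.range x), ∃ w : Fin 3 → ℝ, (∀ i, 0 ≤ w i) ∧
      ∑ i, w i = 1 ∧ ∑ i, w i • x i = p := by
    intro p hp
    rw [convexHull_range_eq_exists_affineCombination] at hp
    obtain ⟨s, w, h0, h1, h2⟩ := hp
    rw [Finset.affineCombination_eq_linear_combination _ _ _ h1] at h2
    refine ⟨fun i => if i ∈ s then w i else 0, fun i => ?_, ?_, ?_⟩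
    · by_cases c : i ∈ s
      · simp only [c, if_true]
        exact h0 i c
      · simp only [c, if_false]
        exact le_refl _
    · rw [Finset.sum_ite_mem, Finset.univ_inter]
      exact h1
    · rw [← h2]
      simp only [ite_smul, zero_smul]
      rw [Finset.sum_ite_mem, Finset.univ_inter]
  have inner : ∀ A : Set P3, Convex ℝ A → (A ∩ convexHull ℝ (Set.range x)).Nonempty →
      (∀ a b, A ∩ segment ℝ (x a) (x b) = ∅) →
      ∃ w : Fin 3 → ℝ, (∀ i, 0 < w i) ∧ ∑ i, w i = 1 ∧ ∑ i, w i • x i ∈ A := by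
    intro A _ hne hseg
    obtain ⟨q, hqA, hq⟩ := hne
    obtain ⟨w, h0, h1, h2⟩ := hull q hq
    refine ⟨w, fun i => ?_, h1, by rw [h2]; exact hqA⟩
    rcases (h0 i).lt_or_eq with h | h
    · exact h
    · exfalso
      rw [Fin.sum_univ_three] at h1 h2
      have hc : i = 0 ∨ i = 1 ∨ i = 2 := by
        fin_cases i <;> simp
      rcases hc with rfl | rfl | rfl
      · have : q ∈ A ∩ segment ℝ (x 1) (x 2) :=
          ⟨hqA, w 1, w 2, h0 1, h0 2, by linarith, by rw [← h2, ← h, zero_smul, zero_add]⟩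
        rw [hseg] at this
        exact this
      · have : q ∈ A ∩ segment ℝ (x 0) (x 2) :=
          ⟨hqA, w 0, w 2, h0 0, h0 2, by linarith, by rw [← h2, ← h, zero_smul, add_zero]⟩
        rw [hseg] at this
        exact this
      · have : q ∈ A ∩ segment ℝ (x 0) (x 1) :=
          ⟨hqA, w 0, w 1, h0 0, h0 1, by linarith, by rw [← h2, ← h, zero_smul, add_zero]⟩
        rw [hseg] at this
        exact this
  have noneg : ∀ A : Set P3, Convex ℝ A → (A ∩ convexHull ℝ (Set.range x)).Nonempty →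
      (∀ a b, A ∩ segment ℝ (x a) (x b) = ∅) → ∀ v : Fin 3 → ℝ, ∑ i, v i = 1 →
      ∑ i, v i • x i ∈ A → ∀ i, 0 ≤ v i := by
    intro A hA hne hseg v hv1 hvA i
    by_contra hcon
    push Not at hcon
    obtain ⟨w, h0, h1, h2⟩ := inner A hA hne hseg
    obtain ⟨a, b, z, hz⟩ := tp_cross x A hA w v h0 h1 hv1 ⟨i, hcon⟩ h2 hvA
    rw [hseg] at hz
    exact hz
  by_cases hX : LinearIndependent ℝ X
  · obtain ⟨g, hg1, hg2⟩ := tp_ker X hX
    have hev : ∀ p : P3, ev g p = ∑ k, g k * (![1, p 0, p 1, p 2] : Fin 4 → ℝ) k := by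
      intro p
      rw [Fin.sum_univ_four]
      simp [ev]
    refine ⟨g, fun p hp => ?_, fun A hA hne hseg p hpA hp => ?_⟩
    · obtain ⟨w, h0, h1, h2⟩ := hull p hp
      have e : ev g p = ∑ i, w i * ∑ k, g k * X i k := by
        rw [← h2]
        simp only [ev, hXdef, Fin.sum_univ_four, Fin.sum_univ_three] at h1 ⊢
        simp
        linear_combination (-(g 0)) * h1
      rw [e]
      refine Finset.sum_eq_zero fun i _ => ?_
      rw [hg1 i, mul_zero]
    · rw [hev] at hp
      obtain ⟨v, hv⟩ := hg2 _ hp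
      have c0 := congrFun hv 0
      have c1 := congrFun hv 1
      have c2 := congrFun hv 2
      have c3 := congrFun hv 3
      simp [hXdef, Fin.sum_univ_three] at c0 c1 c2 c3
      have hv1 : ∑ i, v i = 1 := by
        rw [Fin.sum_univ_three]
        exact c0
      have hvp : ∑ i, v i • x i = p := by
        rw [Fin.sum_univ_three]
        ext k
        fin_cases k
        · simpa using c1
        · simpa using c2
        · simpa using c3
      have hv0 := noneg A hA hne hseg v hv1 (by rw [hvp]; exact hpA)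
      rw [← hvp]
      exact (convex_convexHull ℝ _).sum_mem (fun i _ => hv0 i) hv1
        (fun i _ => subset_convexHull ℝ _ ⟨i, rfl⟩)
  · rw [Fintype.not_linearIndependent_iff] at hX
    obtain ⟨c, hc, i0, hi0⟩ := hX
    have c0 := congrFun hc 0
    have c1 := congrFun hc 1
    have c2 := congrFun hc 2
    have c3 := congrFun hc 3
    simp [hXdef, Fin.sum_univ_three] at c0 c1 c2 c3
    have hcx : ∑ i, c i • x i = 0 := by
      rw [Fin.sum_univ_three]
      ext k
      fin_cases k
      · simpa using c1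
      · simpa using c2
      · simpa using c3
    refine ⟨0, fun p _ => by simp [ev], fun A hA hne hseg => ?_⟩
    exfalso
    obtain ⟨w, h0, h1, h2⟩ := inner A hA hne hseg
    have hall : ∀ s : ℝ, ∀ i, 0 ≤ w i + s * c i := by
      intro s
      refine noneg A hA hne hseg (fun i => w i + s * c i) ?_ ?_
      · rw [Finset.sum_add_distrib, ← Finset.mul_sum, h1, Fin.sum_univ_three, c0]
        ring
      · have : ∑ i, (w i + s * c i) • x i = ∑ i, w i • x i + s • ∑ i, c i • x i := by
          rw [Finset.smul_sum, ← Finset.sum_add_distrib]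
          refine Finset.sum_congr rfl fun i _ => ?_
          rw [add_smul, smul_smul]
        rw [this, hcx, smul_zero, add_zero]
        exact h2
    have h3 := hall (-(w i0 + 1) / c i0) i0
    rw [div_mul_cancel₀ _ hi0] at h3
    linarith

end Pool.Agent.HBX
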