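import Pool.Agent.HBX.Defs

/-! A convex set which meets a polytope lies in it or meets a triangle of its vertices. -/

namespace Pool.Agent.HBX

open Set Module

/-- the last point of a segment in a compact set -/
lemma tr_last {K : Set P3} (hK : IsCompact K) {p q : P3} (hp : p ∈ K) (hq : q ∉ K) :
    ∃ t : ℝ, 0 ≤ t ∧ t < 1 ∧ p + t • (q - p) ∈ K ∧
      ∀ s : ℝ, t < s → s ≤ 1 → p + s • (q - p) ∉ K := by
  have hc : Continuous fun t : ℝ => p + t • (q - p) := by fun_prop
  have hT : IsCompact (Icc (0 : ℝ) 1 ∩ (fun t : ℝ => p + t • (q - p)) ⁻¹' K) :=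
    isCompact_Icc.inter_right (hK.isClosed.preimage hc)
  have h0 : (Icc (0 : ℝ) 1 ∩ (fun t : ℝ => p + t • (q - p)) ⁻¹' K).Nonempty :=
    ⟨0, ⟨le_refl _, zero_le_one⟩, by simpa using hp⟩
  obtain ⟨t, ht, hmax⟩ := hT.exists_isGreatest h0
  refine ⟨t, ht.1.1, ?_, ht.2, ?_⟩
  · rcases lt_or_eq_of_le ht.1.2 with h | h
    · exact h
    · exfalso
      apply hq
      have h2 := ht.2
      rw [h] at h2
      simpa using h2
  · intro s hs hs1 hsK
    exact absurd (hmax ⟨⟨ht.1.1.trans hs.le, hs1⟩, hsK⟩) (not_le.2 hs)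

/-- at most three vertices: a triple of indices -/
lemma tr_triple {k : ℕ} (b : Fin k → P3) {ι : Type} [Fintype ι] (z : ι → P3) (w : ι → ℝ)
    (hz : range z ⊆ range b) (hw : ∀ i, 0 < w i) (h1 : ∑ i, w i = 1) (hcard : Fintype.card ι ≤ 3) :
    ∃ τ : Fin 3 → Fin k, ∑ i, w i • z i ∈ convexHull ℝ (range fun a => b (τ a)) := by
  classical
  have hf : ∀ i, ∃ j, b j = z i := fun i => hz ⟨i, rfl⟩
  choose f hf using hf
  have hne : Nonempty ι := by
    by_contra h
    rw [not_nonempty_iff] at h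
    simp at h1
  obtain ⟨i0⟩ := hne
  let e := Fintype.equivFin ι
  refine ⟨fun a => if h : (a : ℕ) < Fintype.card ι then f (e.symm ⟨a, h⟩) else f i0, ?_⟩
  refine (convex_convexHull ℝ _).sum_mem (fun i _ => (hw i).le) h1 fun i _ => ?_
  apply subset_convexHull
  refine ⟨⟨(e i : ℕ), (e i).2.trans_le hcard⟩, ?_⟩
  have h2 : ((⟨(e i : ℕ), (e i).2.trans_le hcard⟩ : Fin 3) : ℕ) < Fintype.card ι := (e i).2
  simp only [h2, dif_pos]
  rw [show (⟨((e i : ℕ)), h2⟩ : Fin (Fintype.card ι)) = e i from rfl, e.symm_apply_apply, hf]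

/-- a point inside a nondegenerate simplex can be moved in any direction -/
lemma tr_move {ι : Type} [Fintype ι] (z : ι → P3) (w : ι → ℝ) (hz : AffineIndependent ℝ z)
    (hw : ∀ i, 0 < w i) (h1 : ∑ i, w i = 1) (hcard : Fintype.card ι = 4) (v : P3) :
    ∃ ε : ℝ, 0 < ε ∧ ∀ s : ℝ, 0 ≤ s → s ≤ ε →
      (∑ i, w i • z i) + s • v ∈ convexHull ℝ (range z) := by
  classical
  have hspan : vectorSpan ℝ (range z) = ⊤ :=
    hz.vectorSpan_eq_top_of_card_eq_finrank_add_one (by rw [hcard]; simp)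
  have hv : v ∈ vectorSpan ℝ (range z) := by
    rw [hspan]; trivial
  obtain ⟨S, c, hc, hvc⟩ := mem_vectorSpan_iff_eq_weightedVSub ℝ |>.1 hv
  rw [Finset.weightedVSub_eq_linear_combination S hc] at hvc
  set c' : ι → ℝ := fun i => if i ∈ S then c i else 0 with hc'
  have hs0 : ∑ i, c' i = 0 := by
    simp only [hc']
    rw [Finset.sum_ite_mem, Finset.univ_inter, hc]
  have hsv : ∑ i, c' i • z i = v := by
    rw [hvc, hc']
    simp only [ite_smul, zero_smul]
    rw [Finset.sum_ite_mem, Finset.univ_inter]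
  have hne : (Finset.univ : Finset ι).Nonempty := by
    rw [← Finset.card_pos, Finset.card_univ, hcard]; norm_num
  obtain ⟨m, hm, hmin⟩ := Finset.exists_min_image Finset.univ w hne
  obtain ⟨M, hM⟩ : ∃ M : ℝ, 0 < M ∧ ∀ i, |c' i| ≤ M :=
    ⟨∑ i, |c' i| + 1, by positivity, fun i =>
      (Finset.single_le_sum (fun j _ => abs_nonneg (c' j)) (Finset.mem_univ i)).trans
        (by linarith)⟩
  refine ⟨w m / M, div_pos (hw m) hM.1, fun s hs hsε => ?_⟩
  have h2 : (∑ i, w i • z i) + s • v = ∑ i, (w i + s * c' i) • z i := by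
    rw [← hsv, Finset.smul_sum, ← Finset.sum_add_distrib]
    exact Finset.sum_congr rfl fun i _ => by rw [add_smul, mul_smul]
  rw [h2]
  refine (convex_convexHull ℝ _).sum_mem (fun i _ => ?_) ?_ fun i _ => subset_convexHull _ _ ⟨i, rfl⟩
  · have h3 : s * |c' i| ≤ w m := by
      calc s * |c' i| ≤ (w m / M) * M :=
            mul_le_mul hsε (hM.2 i) (abs_nonneg _) (div_pos (hw m) hM.1).le
        _ = w m := by field_simp [hM.1.ne']
    have h4 : -(s * |c' i|) ≤ s * c' i := by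
      rw [← mul_neg]
      exact mul_le_mul_of_nonneg_left (neg_abs_le _) hs
    have h5 := hmin i (Finset.mem_univ i)
    linarith
  · rw [Finset.sum_add_distrib, h1, ← Finset.mul_sum, hs0]
    ring

/-- a convex set which meets a polytope lies in it or meets a triangle of vertices -/
theorem sub_or_tri {k : ℕ} (b : Fin k → P3) (A : Set P3) (hA : Convex ℝ A)
    (h : (A ∩ convexHull ℝ (Set.range b)).Nonempty) :
    A ⊆ convexHull ℝ (Set.range b) ∨
      ∃ τ : Fin 3 → Fin k, (A ∩ convexHull ℝ (Set.range fun a => b (τ a))).Nonempty := by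
  classical
  by_cases hsub : A ⊆ convexHull ℝ (range b)
  · exact Or.inl hsub
  right
  obtain ⟨q, hqA, hqK⟩ := not_subset.1 hsub
  obtain ⟨p, hpA, hpK⟩ := h
  have hK : IsCompact (convexHull ℝ (range b)) := (finite_range b).isCompact_convexHull (𝕜 := ℝ)
  obtain ⟨t, ht0, ht1, htK, htmax⟩ := tr_last hK hpK hqK
  have hxA : p + t • (q - p) ∈ A := by
    have h2 := hA.add_smul_sub_mem hpA hqA ⟨ht0, ht1.le⟩
    exact h2
  obtain ⟨ι, _, z, w, hzb, hzi, hw, hw1, hwx⟩ := eq_pos_convex_span_of_mem_convexHull (𝕜 := ℝ) htK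
  have hle : Fintype.card ι ≤ 4 := by
    have h2 := hzi.card_le_finrank_succ
    have h3 : finrank ℝ (vectorSpan ℝ (range z)) ≤ finrank ℝ P3 := Submodule.finrank_le _
    have h4 : finrank ℝ P3 = 3 := by simp
    omega
  rcases Nat.lt_or_ge (Fintype.card ι) 4 with h3 | h4
  · obtain ⟨τ, hτ⟩ := tr_triple b z w hzb hw hw1 (by omega)
    exact ⟨τ, p + t • (q - p), hxA, hwx ▸ hτ⟩
  · exfalso
    obtain ⟨ε, hε, hmove⟩ := tr_move z w hzi hw hw1 (le_antisymm hle h4) (q - p)
    have h5 : 0 < min ε (1 - t) := lt_min hε (by linarith)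
    have h6 := hmove (min ε (1 - t)) h5.le (min_le_left _ _)
    rw [hwx, add_assoc, ← add_smul] at h6
    exact htmax (t + min ε (1 - t)) (by linarith) (by linarith [min_le_right ε (1 - t)])
      (convexHull_mono hzb h6)

end Pool.Agent.HBX
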